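import Pool.Agent.H.MP_0e6b5f_nt.Eng.Hts

/-!
# The height in terms of the normalised diameters at all places
-/

namespace Pool.Agent.H.MP_0e6b5f_nt.Sp

open Pool.Agent.H.MP_0e6b5f_nt.Dom Pool.Agent.H.MP_0e6b5f_nt.Eng
open Height Height.AdmissibleAbsValues

variable {K : Type*} [Field K] [AdmissibleAbsValues K]

/-- Bound for the height in terms of the normalised diameters at the places of a finite set which
contains all bad nonarchimedean places. -/
theorem mulHeight_le_prod {d : ℕ} (hd : 2 ≤ d) (ζ : Fin d → K) {μ δ : K} (hμ : μ ^ (d - 1) = δ)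
    (V : Finset (nonarchAbsVal (K := K))) (hV : ∀ v, 1 < rho ζ μ v.val → v ∈ V)
    {A : ℝ} (hA : 1 ≤ A) (ha : ∀ v ∈ archAbsVal (K := K), rho ζ μ v ≤ A) :
    mulHeight (tup ζ) * mulHeight₁ δ ≤
      (A ^ totalWeight K * ∏ v ∈ V, max 1 (rho ζ μ v.val)) * mulHeight₁ δ ^ 2 := by
  classical
  have hA0 : 0 ≤ A := zero_le_one.trans hA
  set B : nonarchAbsVal (K := K) → ℝ := fun v => if v ∈ V then max 1 (rho ζ μ v.val) else 1 with hB
  have hBsub : Function.mulSupport B ⊆ (V : Set (nonarchAbsVal (K := K))) := by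
    intro v hv
    rw [Function.mem_mulSupport] at hv
    by_contra h
    exact hv (if_neg fun h2 => h (Finset.mem_coe.2 h2))
  have hBfin : B.HasFiniteMulSupport := V.finite_toSet.subset hBsub
  have hBprod : ∏ᶠ v, B v = ∏ v ∈ V, max 1 (rho ζ μ v.val) := by
    rw [finprod_eq_prod_of_mulSupport_subset _ hBsub]
    exact Finset.prod_congr rfl fun v hv => if_pos hv
  have hB1 : ∀ v, 1 ≤ B v := by
    intro v
    simp only [hB]
    split_ifs
    · exact le_max_left _ _
    · exact le_rfl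
  have hN : (∏ᶠ v : nonarchAbsVal (K := K), loc ζ v.val) ≤
      (∏ᶠ v, B v) * ∏ᶠ v : nonarchAbsVal (K := K), max (v.val μ) 1 := by
    rw [← finprod_mul_distrib hBfin (max_fin μ)]
    refine finprod_le_finprod (loc_fin ζ) (fun v => zero_le_one.trans (one_le_loc ζ v.val))
      (hBfin.fun_mul (max_fin μ)) fun v => ?_
    refine loc_le ζ μ v.val (hB1 v) ?_
    simp only [hB]
    split_ifs with h
    · exact le_max_right _ _
    · by_contra hcon
      exact h (hV v (not_le.1 hcon))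
  have hAr : (archAbsVal.map (fun v : AbsoluteValue K ℝ => loc ζ v)).prod ≤
      A ^ totalWeight K * (archAbsVal.map (fun v : AbsoluteValue K ℝ => max (v μ) 1)).prod := by
    have h1 : (archAbsVal.map (fun v : AbsoluteValue K ℝ => loc ζ v)).prod ≤
        (archAbsVal.map (fun v : AbsoluteValue K ℝ => A * max (v μ) 1)).prod :=
      Multiset.prod_map_le_prod_map₀ _ _ (fun v _ => zero_le_one.trans (one_le_loc ζ v))
        (fun v hv => loc_le ζ μ v hA (ha v hv))
    refine h1.trans (le_of_eq ?_)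
    rw [Multiset.prod_map_mul, Multiset.map_const', Multiset.prod_replicate]
    rfl
  have hAr0 : 0 ≤ (archAbsVal.map (fun v : AbsoluteValue K ℝ => max (v μ) 1)).prod := by
    refine Multiset.prod_nonneg ?_
    intro a ha'
    obtain ⟨v, hv, rfl⟩ := Multiset.mem_map.mp ha'
    exact zero_le_one.trans (le_max_right _ _)
  have hN0 : 0 ≤ ∏ᶠ v : nonarchAbsVal (K := K), loc ζ v.val :=
    finprod_nonneg fun v => zero_le_one.trans (one_le_loc ζ v.val)
  set PB := ∏ v ∈ V, max 1 (rho ζ μ v.val) with hPB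
  have hPB0 : 0 ≤ PB := Finset.prod_nonneg fun v _ => zero_le_one.trans (le_max_left _ _)
  have h1 : mulHeight (tup ζ) ≤ (A ^ totalWeight K * PB) * mulHeight₁ μ := by
    rw [mulHeight_tup, mulHeight₁_eq]
    rw [hBprod] at hN
    calc (archAbsVal.map (fun v : AbsoluteValue K ℝ => loc ζ v)).prod *
          ∏ᶠ v : nonarchAbsVal (K := K), loc ζ v.val
        ≤ (A ^ totalWeight K * (archAbsVal.map (fun v : AbsoluteValue K ℝ => max (v μ) 1)).prod) *
          (PB * ∏ᶠ v : nonarchAbsVal (K := K), max (v.val μ) 1) :=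
          mul_le_mul hAr hN hN0 (mul_nonneg (pow_nonneg hA0 _) hAr0)
      _ = _ := by ring
  have h3 : mulHeight₁ μ ≤ mulHeight₁ δ := by
    rw [← hμ, mulHeight₁_pow]
    exact le_self_pow₀ (one_le_mulHeight₁ μ) (by omega)
  have h4 := one_le_mulHeight₁ δ
  calc mulHeight (tup ζ) * mulHeight₁ δ
      ≤ ((A ^ totalWeight K * PB) * mulHeight₁ μ) * mulHeight₁ δ :=
        mul_le_mul_of_nonneg_right h1 (by linarith)
    _ ≤ ((A ^ totalWeight K * PB) * mulHeight₁ δ) * mulHeight₁ δ :=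
        mul_le_mul_of_nonneg_right (mul_le_mul_of_nonneg_left h3
          (mul_nonneg (pow_nonneg hA0 _) hPB0)) (by linarith)
    _ = _ := by ring

/-- The logarithmic form. -/
theorem log_mulHeight_le {d : ℕ} (hd : 2 ≤ d) (ζ : Fin d → K) {μ δ : K} (hμ : μ ^ (d - 1) = δ)
    (V : Finset (nonarchAbsVal (K := K))) (hV : ∀ v, 1 < rho ζ μ v.val → v ∈ V)
    (hV1 : ∀ v ∈ V, 1 < rho ζ μ v.val)
    {A : ℝ} (hA : 1 ≤ A) (ha : ∀ v ∈ archAbsVal (K := K), rho ζ μ v ≤ A) :
    Real.log (mulHeight (tup ζ) * mulHeight₁ δ) ≤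
      totalWeight K * Real.log A + ∑ v ∈ V, Real.log (rho ζ μ v.val) +
        2 * Real.log (mulHeight₁ δ) := by
  have h1 := mulHeight_le_prod hd ζ hμ V hV hA ha
  have h2 : ∏ v ∈ V, max 1 (rho ζ μ v.val) = ∏ v ∈ V, rho ζ μ v.val :=
    Finset.prod_congr rfl fun v hv => max_eq_right (hV1 v hv).le
  rw [h2] at h1
  have hp : 0 < ∏ v ∈ V, rho ζ μ v.val := Finset.prod_pos fun v hv => by
    have := hV1 v hv
    linarith
  have hD : 0 < mulHeight₁ δ := mulHeight₁_pos δ
  have hAp : 0 < A := by linarith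
  have h3 := Real.log_le_log (mul_pos (mulHeight_pos (tup ζ)) hD) h1
  have h4 : Real.log ((A ^ totalWeight K * ∏ v ∈ V, rho ζ μ v.val) * mulHeight₁ δ ^ 2) =
      totalWeight K * Real.log A + ∑ v ∈ V, Real.log (rho ζ μ v.val) +
        2 * Real.log (mulHeight₁ δ) := by
    rw [Real.log_mul (mul_pos (pow_pos hAp _) hp).ne' (pow_pos hD _).ne',
      Real.log_mul (pow_pos hAp _).ne' hp.ne', Real.log_pow, Real.log_pow,
      Real.log_prod (fun v hv => by
        have := hV1 v hv
        linarith)]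
    push_cast
    rfl
  rw [h4] at h3
  exact h3

end Pool.Agent.H.MP_0e6b5f_nt.Sp
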