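import Pool.Agent.H.MP_0e6b5f_nt.Df.Engine
import Pool.Agent.H.MP_0e6b5f_nt.Df.Dist
import Pool.Agent.H.MP_0e6b5f_nt.Eng.Asm
import Pool.Agent.H.MP_0e6b5f_nt.Sp.Hts

/-!
# The bound over a number field containing the fixed points, in terms of the number of the bad
places which are not deficient
-/

namespace Pool.Agent.H.MP_0e6b5f_nt.Sp

open Pool.Agent.H.MP_0e6b5f_nt.Dom Pool.Agent.H.MP_0e6b5f_nt.Eng
open NumberField Module
open Height Height.AdmissibleAbsValues Function Real

/-- Two of the points `ζ i` are at least as far from all points of `Z` as the diameter of the set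
of the `ζ i`. -/
def TwoFar {K : Type*} [Field K] {d : ℕ} (v : AbsoluteValue K ℝ) (ζ : Fin d → K) (Z : Set K) :
    Prop :=
  ∃ i j, i ≠ j ∧ ∀ z ∈ Z, ∀ k l, v (ζ k - ζ l) ≤ v (z - ζ i) ∧ v (ζ k - ζ l) ≤ v (z - ζ j)

/-- The points of a finite invariant set are periodic. -/
theorem periodic_of_invariant {K : Type*} [Field K] {F : Polynomial K} {δ : K} (hδ : δ ≠ 0)
    (S : Finset (K × K)) (hS : ∀ P ∈ S, hen F δ P ∈ S) :
    ∀ P ∈ S, ∃ n, 1 ≤ n ∧ (hen F δ)^[n] P = P := by
  classical
  set f : S → S := fun P => ⟨hen F δ P.1, hS P.1 P.2⟩ with hf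
  have hinj : Function.Injective f := by
    intro P Q h
    apply Subtype.ext
    apply hen_injective _ hδ
    exact congrArg Subtype.val h
  set σ : Equiv.Perm S := Equiv.ofBijective f (Finite.injective_iff_bijective.mp hinj) with hσ
  have hit : ∀ (n : ℕ) (P : S), ((σ ^ n) P : S).1 = (hen F δ)^[n] P.1 := by
    intro n
    induction n with
    | zero => intro P; rfl
    | succ n ih =>
      intro P
      rw [pow_succ', Equiv.Perm.mul_apply, iterate_succ_apply', ← ih]
      rfl
  intro P hP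
  refine ⟨orderOf σ, orderOf_pos σ, ?_⟩
  have h1 := hit (orderOf σ) ⟨P, hP⟩
  rw [pow_orderOf_eq_one] at h1
  exact h1.symm

/-- The gain at a place where two fixed points are far from the points. -/
theorem gain_twoFar {K : Type*} [Field K] {d : ℕ} (hd : 2 ≤ d) {c δ μ : K}
    (hδ : δ ≠ 0) (hμ : μ ^ (d - 1) = δ) {ζ ζ' : Fin d → K} {i₀ : Fin d}
    (hζ' : ζ' = fun i => c * (ζ i - ζ i₀)) {ι : Type*} [Fintype ι]
    [Nonempty ι] (O : Orb ζ' δ ι) {Z : Set K} (z : ι → K)
    (hz : ∀ P, z P ∈ Z) (hy : ∀ P, O.y P = c * (z P - ζ i₀)) {v : AbsoluteValue K ℝ}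
    (hv : IsNonarchimedean v) (hfar : TwoFar v ζ Z) (hR : 1 < rho ζ' μ v) :
    ∃ g, Df.Gain O Finset.univ μ v (log (rho ζ' μ v) / d) g := by
  classical
  subst hζ'
  obtain ⟨i, j, hij, hfar⟩ := hfar
  set ρ := rho (fun i => c * (ζ i - ζ i₀)) μ v with hρ
  have hlog : 0 < log ρ := log_pos hR
  have hM : (0 : ℝ) < max 1 (v μ) := lt_max_of_lt_left one_pos
  have hρM : ∀ P, ρ * max 1 (v μ) ≤ v (O.y P - c * (ζ i - ζ i₀)) ∧
      ρ * max 1 (v μ) ≤ v (O.y P - c * (ζ j - ζ i₀)) := by
    intro P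
    have h1 : ρ * max 1 (v μ) = ⨆ p : Fin d × Fin d,
        v (c * (ζ p.1 - ζ i₀) - c * (ζ p.2 - ζ i₀)) := by
      rw [hρ, rho, div_mul_cancel₀ _ hM.ne']
    have hne : Nonempty (Fin d × Fin d) := ⟨(⟨0, by omega⟩, ⟨0, by omega⟩)⟩
    have h2 : ∀ k l, v (c * (ζ k - ζ i₀) - c * (ζ l - ζ i₀)) = v c * v (ζ k - ζ l) := by
      intro k l
      rw [← map_mul]; congr 1; ring
    have h3 : ∀ k, v (O.y P - c * (ζ k - ζ i₀)) = v c * v (z P - ζ k) := by
      intro k
      rw [hy, ← map_mul]; congr 1; ring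
    rw [h1, h3, h3]
    constructor
    · refine ciSup_le fun p => ?_
      rw [h2]
      exact mul_le_mul_of_nonneg_left (hfar _ (hz P) p.1 p.2).1 (v.nonneg _)
    · refine ciSup_le fun p => ?_
      rw [h2]
      exact mul_le_mul_of_nonneg_left (hfar _ (hz P) p.1 p.2).2 (v.nonneg _)
  have hsum : ∑ k, (if k = i ∨ k = j then log ρ else 0) = 2 * log ρ := by
    rw [← Finset.sum_filter]
    have h1 : Finset.univ.filter (fun k => k = i ∨ k = j) = {i, j} := by
      ext k; simp
    rw [h1, Finset.sum_pair hij]; ring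
  have h1 := Df.gain_of_dist hd (ζ := fun i => c * (ζ i - ζ i₀)) (i₀ := i₀) (by simp) hδ hμ O hv
    (fun k => if k = i ∨ k = j then log ρ else 0)
    (fun k => by
      show 0 ≤ if k = i ∨ k = j then log ρ else 0
      split_ifs
      · exact hlog.le
      · exact le_rfl)
    (fun k hk P => by
      have hk' : k = i ∨ k = j := by
        by_contra hcon
        simp only [hcon, if_false] at hk
        exact lt_irrefl _ hk
      simp only [hk', if_true]
      rw [exp_log (by linarith)]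
      rcases hk' with rfl | rfl
      · exact (hρM P).1
      · exact (hρM P).2)
    (by
      rw [hsum, ← hρ, max_eq_right hlog.le]
      linarith)
  obtain ⟨g, hg⟩ := h1
  refine ⟨g, ?_⟩
  rw [hsum, ← hρ, max_eq_right hlog.le] at hg
  have h2 : 2 * log ρ - log ρ = log ρ := by ring
  rw [h2] at hg
  exact hg

/-- The constant of the comparison. -/
noncomputable def cT (D d : ℕ) : ℝ := 10 + 10 * D + 10 * d * (1 + D) + 1000 * (d : ℝ) ^ 3 * (1 + D)

theorem cT_ge (D d : ℕ) : 1 ≤ cT D d := by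
  unfold cT
  have h1 : (0 : ℝ) ≤ 1000 * (d : ℝ) ^ 3 * (1 + D) := by positivity
  have h2 : (0 : ℝ) ≤ D := Nat.cast_nonneg _
  have h3 : (0 : ℝ) ≤ 10 * d * (1 + D) := by positivity
  linarith

universe u

/-- The bound over a number field containing the fixed points and a root of the Jacobian. -/
theorem asm (D d : ℕ) (hd : 2 ≤ d) : ∃ C : ℝ, 0 ≤ C ∧ ∀ (K : Type u) [Field K] [NumberField K],
    finrank ℚ K = D → ∀ (c δ μ : K) (ζ : Fin d → K), c ≠ 0 → δ ≠ 0 → μ ^ (d - 1) = δ →
      ∀ (Z : Set K) (s : ℕ),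
      {v : FinitePlace K | 1 < rho (fun i => c * ζ i) μ v.val ∧ ¬ TwoFar v.val ζ Z}.ncard ≤ s →
      ∀ S : Finset (K × K), (∀ P ∈ S, hen (fixPoly c δ ζ) δ P ∈ S) → (∀ P ∈ S, P.2 ∈ Z) →
        (S.card : ℝ) ≤ C * ((1 + s + logHeight₁ δ) * (1 + log (1 + s + logHeight₁ δ))) ^ 4 := by
  obtain ⟨C₀, hC₀⟩ := good_case.{u} D d hd
  obtain ⟨C₂, hC₂0, hC₂⟩ := Df.engine2.{u, u} hd
  refine ⟨C₀ + (cE d + C₂) * (cT D d * (1 + log (cT D d))) ^ 4, ?_, ?_⟩
  · have h1 := cE_nonneg d
    have h2 := cT_ge D d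
    have h3 : 0 ≤ log (cT D d) := log_nonneg h2
    positivity
  intro K _ _ hK c δ μ ζ hc hδ hμ Z s hs S hS hSZ
  classical
  have hcE := cE_nonneg d
  have hcT := cT_ge D d
  have hlcT : 0 ≤ log (cT D d) := log_nonneg hcT
  set h := logHeight₁ δ with hh
  have hh0 : 0 ≤ h := zero_le_logHeight₁ δ
  set Y : ℝ := 1 + s + h with hY
  have hs0 : (0 : ℝ) ≤ s := Nat.cast_nonneg s
  have hY1 : 1 ≤ Y := by rw [hY]; linarith
  have hlogY : 0 ≤ log Y := log_nonneg hY1
  have hYY : 1 ≤ (Y * (1 + log Y)) ^ 4 :=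
    one_le_pow₀ (one_le_mul_of_one_le_of_one_le hY1 (by linarith))
  have hμ0 : μ ≠ 0 := by
    rintro rfl
    apply hδ
    rw [← hμ, zero_pow (by omega)]
  have hD0 : (0 : ℝ) ≤ D := Nat.cast_nonneg D
  have hC₀0 : (0 : ℝ) ≤ C₀ := Nat.cast_nonneg _
  -- conclusion from a bound in terms of a comparable quantity
  have hfinish : ∀ C₁ W : ℝ, 0 ≤ C₁ → C₁ ≤ cE d + C₂ → 1 ≤ W → W ≤ cT D d * Y →
      (S.card : ℝ) ≤ C₁ * (W * (1 + log W)) ^ 4 →
      (S.card : ℝ) ≤ (C₀ + (cE d + C₂) * (cT D d * (1 + log (cT D d))) ^ 4) *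
        (Y * (1 + log Y)) ^ 4 := by
    intro C₁ W hC1 hC1' hW1 hWY hcard
    have h2 := scale4 hcT hY1 hW1 hWY
    calc (S.card : ℝ) ≤ C₁ * ((cT D d * (1 + log (cT D d))) ^ 4 * (Y * (1 + log Y)) ^ 4) :=
          hcard.trans (mul_le_mul_of_nonneg_left h2 hC1)
      _ ≤ (cE d + C₂) * ((cT D d * (1 + log (cT D d))) ^ 4 * (Y * (1 + log Y)) ^ 4) :=
          mul_le_mul_of_nonneg_right hC1' (by positivity)
      _ = (cE d + C₂) * (cT D d * (1 + log (cT D d))) ^ 4 * (Y * (1 + log Y)) ^ 4 := by ring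
      _ ≤ _ := mul_le_mul_of_nonneg_right (by linarith) (by positivity)
  -- the case without bad finite places
  by_cases hall : ∀ v : FinitePlace K, rho (fun i => c * ζ i) μ v.val ≤ 1
  · have h1 := hC₀ K hK c δ μ ζ hc hδ hμ hall S (periodic_of_invariant hδ S hS)
    have h2 : (S.card : ℝ) ≤ C₀ := by exact_mod_cast h1
    calc (S.card : ℝ) ≤ C₀ := h2
      _ ≤ C₀ + (cE d + C₂) * (cT D d * (1 + log (cT D d))) ^ 4 := by
          have : 0 ≤ (cE d + C₂) * (cT D d * (1 + log (cT D d))) ^ 4 := by positivity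
          linarith
      _ ≤ _ := le_mul_of_one_le_right (by positivity) hYY
  push Not at hall
  obtain ⟨v₀, hv₀⟩ := hall
  -- the empty case
  rcases S.eq_empty_or_nonempty with hSe | hSne
  · rw [hSe, Finset.card_empty, Nat.cast_zero]
    positivity
  have hSn : Nonempty S := hSne.to_subtype
  -- the orbit
  have i₀ : Fin d := ⟨0, by omega⟩
  obtain ⟨ζ', hζ'⟩ : ∃ z : Fin d → K, z = fun i => c * (ζ i - ζ i₀) := ⟨_, rfl⟩
  obtain ⟨O, hy, hx⟩ : ∃ O : Orb ζ' δ S, (∀ P : S, O.y P = c * (P.1.2 - ζ i₀)) ∧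
      ∀ P : S, O.y (O.σ⁻¹ P) = c * (P.1.1 - ζ i₀) := by
    rw [hζ']
    exact exists_orb hd hδ ζ i₀ S hS
  have hinj : ∀ P Q, O.y P = O.y Q → O.y (O.σ⁻¹ P) = O.y (O.σ⁻¹ Q) → P = Q := by
    intro P Q h1 h2
    rw [hy, hy] at h1
    rw [hx, hx] at h2
    have h3 := mul_right_injective₀ hc h1
    have h4 := mul_right_injective₀ hc h2
    apply Subtype.ext
    apply Prod.ext
    · exact sub_left_injective h4
    · exact sub_left_injective h3
  have hcardS : (Fintype.card S : ℝ) = S.card := by rw [Fintype.card_coe]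
  have hζ0 : ζ' i₀ = 0 := by rw [hζ']; simp
  have hrho : ∀ v : AbsoluteValue K ℝ, rho (fun i => c * ζ i) μ v = rho ζ' μ v := by
    intro v
    rw [rho, rho]
    congr 1
    apply iSup_congr
    intro p
    congr 1
    rw [hζ']; ring
  have hdeg : ((totalWeight K : ℕ) : ℝ) = D := by
    rw [totalWeight_eq_finrank, hK]
  have hdegN : totalWeight K = D := by
    rw [totalWeight_eq_finrank, hK]
  rw [hrho] at hv₀
  have hv₀2 := two_le_rho hd ζ' hμ0 v₀ hv₀
  have hfinbad := bad_finite (K := K) ζ' μ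
  set V : Finset (nonarchAbsVal (K := K)) := hfinbad.toFinset with hV
  have hVmem : ∀ v, v ∈ V ↔ 1 < rho ζ' μ v.val := fun v => by
    rw [hV, Set.Finite.mem_toFinset]; rfl
  set Vd := V.filter (fun v => TwoFar v.val ζ Z) with hVd
  set Vn := V.filter (fun v => ¬ TwoFar v.val ζ Z) with hVn
  have hVnc : Vn.card ≤ s := by
    have e1 : (Vn : Set (nonarchAbsVal (K := K))) =
        {v : FinitePlace K | 1 < rho (fun i => c * ζ i) μ v.val ∧ ¬ TwoFar v.val ζ Z} := by
      ext v
      have e2 : v ∈ Vn ↔ 1 < rho (fun i => c * ζ i) μ v.val ∧ ¬ TwoFar v.val ζ Z := by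
        rw [hVn, Finset.mem_filter, hVmem, hrho]
      exact e2
    have e3 : (Vn : Set (nonarchAbsVal (K := K))).ncard ≤ s := by rw [e1]; exact hs
    rwa [Set.ncard_coe_finset] at e3
  have htwo : ∀ v ∈ V, (1 : ℝ) / 2 ≤ log (rho ζ' μ v.val) := by
    intro v hv
    have h1 := two_le_rho hd ζ' hμ0 (⟨v.val, v.property⟩ : FinitePlace K) ((hVmem v).mp hv)
    have h2 := log_le_log (by norm_num) h1
    have := log_two_gt_d9
    have h3 : log (rho ζ' μ (⟨v.val, v.property⟩ : FinitePlace K).val) =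
      log (rho ζ' μ v.val) := rfl
    linarith
  set a := ∑ v ∈ Vd, log (rho ζ' μ v.val) with ha
  set b := ∑ v ∈ Vn, log (rho ζ' μ v.val) with hb
  have hab : ∑ v ∈ V, log (rho ζ' μ v.val) = a + b :=
    (Finset.sum_filter_add_sum_filter_not V (fun v => TwoFar v.val ζ Z) _).symm
  have ha0 : 0 ≤ a := Finset.sum_nonneg fun v hv => by
    have := htwo v (Finset.mem_of_mem_filter v hv)
    linarith
  -- the largest of the other diameters
  obtain ⟨w₁, hw₁⟩ : ∃ w, w ∈ archAbsVal (K := K) := by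
    apply Multiset.card_pos_iff_exists_mem.mp
    have h1 : totalWeight K = Multiset.card (archAbsVal (K := K)) := rfl
    rw [← h1, totalWeight_eq_finrank]
    exact Module.finrank_pos
  set U : Finset (AbsoluteValue K ℝ) :=
    (Vn.image (fun v => v.val)) ∪ (archAbsVal (K := K)).toFinset with hU
  have hUne : U.Nonempty := ⟨w₁, by
    rw [hU, Finset.mem_union]; right; exact Multiset.mem_toFinset.mpr hw₁⟩
  obtain ⟨w, hwU, hwmax⟩ := Finset.exists_max_image U (fun v => rho ζ' μ v) hUne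
  set M := max 1 (rho ζ' μ w) with hM
  have hM1 : 1 ≤ M := le_max_left _ _
  have hlM : 0 ≤ log M := log_nonneg hM1
  have hn : ∀ v ∈ Vn, rho ζ' μ v.val ≤ M := by
    intro v hv
    refine (hwmax v.val ?_).trans (le_max_right _ _)
    rw [hU, Finset.mem_union]
    left
    exact Finset.mem_image.mpr ⟨v, hv, rfl⟩
  have har : ∀ v ∈ archAbsVal (K := K), rho ζ' μ v ≤ M := by
    intro v hv
    refine (hwmax v ?_).trans (le_max_right _ _)
    rw [hU, Finset.mem_union]
    right
    exact Multiset.mem_toFinset.mpr hv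
  have hble : b ≤ s * log M := by
    calc b ≤ ∑ _v ∈ Vn, log M := Finset.sum_le_sum fun v hv => log_le_log (by
          have := (hVmem v).mp (Finset.mem_of_mem_filter v hv)
          linarith) (hn v hv)
      _ = Vn.card * log M := by rw [Finset.sum_const, nsmul_eq_mul]
      _ ≤ s * log M := mul_le_mul_of_nonneg_right (by exact_mod_cast hVnc) hlM
  set H := D * log M + (a + s * log M) + 2 * h with hH
  have hH1 : log (mulHeight (tup ζ') * mulHeight₁ δ) ≤ H := by
    have h1 := log_mulHeight_le hd ζ' hμ V (fun v hv => (hVmem v).mpr hv)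
      (fun v hv => (hVmem v).mp hv) hM1 har
    rw [hab, hdeg] at h1
    have h2 : log (mulHeight₁ δ) = h := rfl
    rw [h2] at h1
    linarith
  have hH2 : log (mulHeight (tup (fun i => μ⁻¹ * ζ' i)) * mulHeight₁ δ⁻¹) ≤ H := by
    have h1 := log_mulHeight_le hd (fun i => μ⁻¹ * ζ' i) (μ := μ⁻¹) (δ := δ⁻¹)
      (by rw [inv_pow, hμ]) V (fun v hv => (hVmem v).mpr (by rwa [rho_rev ζ' hμ0] at hv))
      (fun v hv => by rw [rho_rev ζ' hμ0]; exact (hVmem v).mp hv) hM1
      (fun v hv => by rw [rho_rev ζ' hμ0]; exact har v hv)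
    simp only [rho_rev ζ' hμ0] at h1
    rw [hab, hdeg, mulHeight₁_inv] at h1
    have h2 : log (mulHeight₁ δ) = h := rfl
    rw [h2] at h1
    rw [mulHeight₁_inv]
    linarith
  have hH0 : 0 ≤ H := by
    have h1 : 0 ≤ (D : ℝ) * log M := mul_nonneg hD0 hlM
    have h2 : 0 ≤ (s : ℝ) * log M := mul_nonneg hs0 hlM
    rw [hH]; linarith
  have hDs0 : (0 : ℝ) ≤ D * s := mul_nonneg hD0 hs0
  have hDh0 : (0 : ℝ) ≤ D * h := mul_nonneg hD0 hh0
  have hd0 : (0 : ℝ) < d := by exact_mod_cast (by omega : 0 < d)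
  have hsh : 0 ≤ (s : ℝ) * h := mul_nonneg hs0 hh0
  by_cases hcase : (D + s) * log M ≤ a ∧ 0 < a
  · -- the deficient places dominate
    obtain ⟨hc1, hapos⟩ := hcase
    have hVdne : Vd.Nonempty := by
      by_contra hcon
      rw [Finset.not_nonempty_iff_eq_empty] at hcon
      rw [ha, hcon, Finset.sum_empty] at hapos
      exact lt_irrefl _ hapos
    have ha12 : (1 : ℝ) / 2 ≤ a := by
      obtain ⟨v, hv⟩ := hVdne
      refine (htwo v (Finset.mem_of_mem_filter v hv)).trans ?_
      exact Finset.single_le_sum (f := fun v => log (rho ζ' μ v.val)) (fun u hu => by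
        have := htwo u (Finset.mem_of_mem_filter u hu)
        linarith) hv
    have hgain : ∀ v ∈ Vd, ∃ g, Df.Gain O Finset.univ μ v.val (log (rho ζ' μ v.val) / d) g := by
      intro v hv
      have hv' := Finset.mem_filter.mp hv
      exact gain_twoFar hd hδ hμ hζ' O (Z := Z) (fun P => P.1.2) (fun P => hSZ _ P.2) hy
        (isNonarchimedean v.val v.property) hv'.2 ((hVmem v).mp hv'.1)
    choose! g hg using hgain
    have h1 := hC₂ (K := K) hζ0 hδ hμ O hinj Finset.univ (by simp) Vd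
      (fun v => log (rho ζ' μ v.val) / d) g
      (fun v hv => by
        have := htwo v (Finset.mem_of_mem_filter v hv)
        have h3 : 0 ≤ log (rho ζ' μ v.val) := by linarith
        positivity)
      hg w₁ hw₁ (l₁ := 0) le_rfl (Or.inl rfl) (Λ := a / d) (h := H)
      (by rw [add_zero, ← Finset.sum_div]) (by positivity) hH1
    rw [hdeg, hcardS] at h1
    refine hfinish C₂ _ hC₂0 (by linarith) ?_ ?_ h1
    · have : 0 ≤ (D + H) / (a / d) := by positivity
      linarith
    · have h2 : (D + H) / (a / d) ≤ 2 * d * D + 2 * d + 4 * d * h := by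
        rw [div_div_eq_mul_div, div_le_iff₀ hapos]
        have h3 : H ≤ 2 * a + 2 * h := by rw [hH]; linarith
        have h4 : (D + H) * d ≤ (D + (2 * a + 2 * h)) * d :=
          mul_le_mul_of_nonneg_right (by linarith) hd0.le
        have h7 : 0 ≤ 2 * a - 1 := by linarith
        have h5 : 0 ≤ (D : ℝ) * d * (2 * a - 1) := by positivity
        have h6 : 0 ≤ h * d * (2 * a - 1) := by positivity
        linarith
      have h3 : 1 + (2 * d * D + 2 * d + 4 * d * h) ≤ cT D d * Y := by
        have e1 : (0 : ℝ) ≤ 1000 * (d : ℝ) ^ 3 * (1 + D) := by positivity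
        have e2 : (0 : ℝ) ≤ (10 + 10 * D + 1000 * (d : ℝ) ^ 3 * (1 + D)) * (s + h) := by positivity
        have e3 : (0 : ℝ) ≤ d * D := by positivity
        have e4 : (0 : ℝ) ≤ d * h := by positivity
        have e5 : (0 : ℝ) ≤ d * D * h := by positivity
        have e6 : (0 : ℝ) ≤ d * (1 + D) * s := by positivity
        have e7 : cT D d * Y = cT D d + (10 + 10 * D + 1000 * (d : ℝ) ^ 3 * (1 + D)) * (s + h) +
          10 * (d * (1 + D) * s) + 10 * (d * h) + 10 * (d * D * h) := by
          rw [hY]; unfold cT; ring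
        rw [e7]
        have e8 : 10 + 10 * d * (1 + (D : ℝ)) ≤ cT D d := by
          unfold cT
          have : (0 : ℝ) ≤ 10 * D := by positivity
          linarith
        linarith
      linarith
  · have hale : a ≤ (D + s) * log M := by
      by_contra hcon
      push Not at hcon
      apply hcase
      have h1 : 0 ≤ (D + s) * log M := mul_nonneg (by linarith) hlM
      exact ⟨hcon.le, by linarith⟩
    have hHle : H ≤ 2 * (D + s) * log M + 2 * h := by rw [hH]; linarith
    rcases le_or_gt (2 ^ (200 * d ^ 3)) (rho ζ' μ w) with hbig | hsmall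
    · -- one large place
      have h2w : 2 ≤ rho ζ' μ w := by
        refine le_trans ?_ hbig
        have : 200 * d ^ 3 ≠ 0 := by positivity
        exact le_self_pow₀ (by norm_num) this
      have hMw : M = rho ζ' μ w := max_eq_right (by linarith)
      have hlw : (1 : ℝ) / 2 ≤ log (rho ζ' μ w) := by
        have h2 := log_le_log (by norm_num) h2w
        have := log_two_gt_d9
        linarith
      have hlw0 : 0 < log (rho ζ' μ w) := by linarith
      have hw : (w ∈ nonarchAbsVal (K := K) ∧ 1 < rho ζ' μ w) ∨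
          (w ∉ nonarchAbsVal (K := K) ∧ w ∈ archAbsVal (K := K) ∧
          2 ^ (200 * d ^ 3) ≤ rho ζ' μ w) := by
        by_cases hwn : w ∈ nonarchAbsVal (K := K)
        · exact Or.inl ⟨hwn, by linarith⟩
        · right
          refine ⟨hwn, ?_, hbig⟩
          rw [hU, Finset.mem_union] at hwU
          rcases hwU with h1 | h1
          · rw [Finset.mem_image] at h1
            obtain ⟨u, _, hu⟩ := h1
            exact absurd (hu ▸ u.property) hwn
          · exact Multiset.mem_toFinset.mp h1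
      have h1 := sym_engine hd hζ0 hδ hμ O hinj w hw hH1 hH2
      rw [hdeg, hcardS] at h1
      refine hfinish (cE d) _ hcE (by linarith) ?_ ?_ h1
      · have : 0 ≤ (D + H) / log (rho ζ' μ w) := by positivity
        linarith
      · have h2 : (D + H) / log (rho ζ' μ w) ≤ 2 * D + 2 * (D + s) + 4 * h := by
          rw [div_le_iff₀ hlw0]
          rw [hMw] at hHle
          have h7 : 0 ≤ 2 * log (rho ζ' μ w) - 1 := by linarith
          have h5 : 0 ≤ (D : ℝ) * (2 * log (rho ζ' μ w) - 1) := by positivity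
          have h6 : 0 ≤ h * (2 * log (rho ζ' μ w) - 1) := by positivity
          linarith
        have h3 : 1 + (2 * D + 2 * (D + s) + 4 * h) ≤ cT D d * Y := by
          have e1 : (0 : ℝ) ≤ 10 * d * (1 + D) + 1000 * (d : ℝ) ^ 3 * (1 + D) := by positivity
          have e4 : 10 + 10 * (D : ℝ) ≤ cT D d := by unfold cT; linarith
          have e5 : (10 + 10 * (D : ℝ)) * Y ≤ cT D d * Y :=
            mul_le_mul_of_nonneg_right e4 (by linarith)
          refine le_trans ?_ e5
          rw [hY]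
          linarith
        linarith
    · -- all other places are small
      have hMle : M ≤ 2 ^ (200 * d ^ 3) := max_le (one_le_pow₀ (by norm_num)) hsmall.le
      have hlog2' : log 2 ≤ 1 := by have := log_two_lt_d9; linarith
      have hlMle : log M ≤ 200 * (d : ℝ) ^ 3 := by
        have h1 := log_le_log (by linarith) hMle
        rw [log_pow] at h1
        push_cast at h1
        have : (0 : ℝ) ≤ 200 * (d : ℝ) ^ 3 := by positivity
        nlinarith
      have hlv : (1 : ℝ) / 2 ≤ log (rho ζ' μ v₀.val) := by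
        have h2 := log_le_log (by norm_num) hv₀2
        have := log_two_gt_d9
        linarith
      have hlv0 : 0 < log (rho ζ' μ v₀.val) := by linarith
      have h1 := sym_engine hd hζ0 hδ hμ O hinj v₀.val (Or.inl ⟨v₀.isFinitePlace, hv₀⟩) hH1 hH2
      rw [hdeg, hcardS] at h1
      refine hfinish (cE d) _ hcE (by linarith) ?_ ?_ h1
      · have : 0 ≤ (D + H) / log (rho ζ' μ v₀.val) := by positivity
        linarith
      · have h3 : H ≤ 400 * (d : ℝ) ^ 3 * (D + s) + 2 * h := by
          have h4 : 2 * (D + s) * log M ≤ 2 * (D + s) * (200 * (d : ℝ) ^ 3) :=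
            mul_le_mul_of_nonneg_left hlMle (by positivity)
          linarith
        have h2 : (D + H) / log (rho ζ' μ v₀.val) ≤
            2 * (D + (400 * (d : ℝ) ^ 3 * (D + s) + 2 * h)) := by
          rw [div_le_iff₀ hlv0]
          have h5 : 0 ≤ D + (400 * (d : ℝ) ^ 3 * (D + s) + 2 * h) := by positivity
          have h7 : 0 ≤ 2 * log (rho ζ' μ v₀.val) - 1 := by linarith
          have h6 := mul_nonneg h5 h7
          linarith
        have h4 : 1 + 2 * (D + (400 * (d : ℝ) ^ 3 * (D + s) + 2 * h)) ≤ cT D d * Y := by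
          have e1 : (0 : ℝ) ≤ (d : ℝ) ^ 3 := by positivity
          have e2 : (0 : ℝ) ≤ 10 * d * (1 + D) := by positivity
          have e3 : 0 ≤ (d : ℝ) ^ 3 * (D * s) := by positivity
          have e4 : 0 ≤ (d : ℝ) ^ 3 * (1 + D) * h := by positivity
          have e5 : 10 + 10 * (D : ℝ) + 1000 * (d : ℝ) ^ 3 * (1 + D) ≤ cT D d := by
            unfold cT; linarith
          have e6 : (10 + 10 * (D : ℝ) + 1000 * (d : ℝ) ^ 3 * (1 + D)) * Y ≤ cT D d * Y :=
            mul_le_mul_of_nonneg_right e5 (by linarith)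
          refine le_trans ?_ e6
          rw [hY]
          have e7 : 0 ≤ (d : ℝ) ^ 3 * s := by positivity
          have e8 : 0 ≤ (d : ℝ) ^ 3 * D := by positivity
          linarith
        linarith

end Pool.Agent.H.MP_0e6b5f_nt.Sp
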