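import Pool.Agent.H.MP_0e6b5f_nt.Sp.Kappa
import Pool.Agent.H.MP_0e6b5f_nt.DefsTightLE
import Pool.Agent.H.MP_0e6b5f_nt.Eng.OnePlace
import Pool.Agent.H.MP_0e6b5f_nt.BP.Final

/-!
# The bound for the periodic points of bounded degree in terms of the number of tight places
-/

namespace Pool.Agent.H.MP_0e6b5f_nt.Sp

open Pool.Agent.H.MP_0e6b5f_nt Pool.Agent.H.MP_0e6b5f_nt.Dom Pool.Agent.H.MP_0e6b5f_nt.Eng
open NumberField Module Polynomial
open Height Height.AdmissibleAbsValues Function Real

universe u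

/-- Bad reduction can be seen over any extension of number fields. -/
theorem bad_of_ext {K : Type u} [Field K] [NumberField K] {L : Type u} [Field L] [NumberField L]
    [Algebra K L] {F : K[X]} {δ : K} {v : FinitePlace K} {w : FinitePlace L} {k : ℕ} (hk : 1 ≤ k)
    (h : ∀ a : K, w (algebraMap K L a) = v a ^ k)
    (hfar : FixedPointsFar w.val (F.map (algebraMap K L)) (algebraMap K L δ)) :
    v ∈ badPlaces F δ := by
  have hfd : FiniteDimensional K L := FiniteDimensional.right ℚ K L
  set φ : L →ₐ[K] AlgebraicClosure K := IsAlgClosed.lift with hφ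
  set L' : IntermediateField K (AlgebraicClosure K) := φ.fieldRange with hL'
  have e : L ≃ₐ[K] L' := AlgEquiv.ofInjectiveField φ
  have hfd' : FiniteDimensional K L' := Module.Finite.equiv e.toLinearEquiv
  have hfdQ : FiniteDimensional ℚ L' := FiniteDimensional.trans ℚ K L'
  have hnf : NumberField L' := { to_charZero := inferInstance, to_finiteDimensional := hfdQ }
  let _ : Algebra L L' := e.toRingHom.toAlgebra
  obtain ⟨w', m, hm, hw'⟩ := exists_finitePlace_over L' w
  have hea : ∀ x : L, algebraMap L L' x = e x := fun x => rfl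
  have hcomp : ∀ a : K, e (algebraMap K L a) = algebraMap K L' a := fun a => e.commutes a
  refine ⟨L', hnf, w', k * m, Nat.mul_pos hk hm, ?_, ?_⟩
  · intro a
    rw [← hcomp, ← hea, hw', h, ← pow_mul]
  · obtain ⟨x, y, hx, hy, hxy⟩ := hfar
    have hFm : F.map (algebraMap K L') = (F.map (algebraMap K L)).map (algebraMap L L') := by
      rw [Polynomial.map_map]
      congr 1
      ext a
      rw [RingHom.comp_apply, hea, hcomp]
    have hδm : algebraMap K L' δ = algebraMap L L' (algebraMap K L δ) := by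
      rw [hea, hcomp]
    refine ⟨algebraMap L L' x, algebraMap L L' y, ?_, ?_, ?_⟩
    · rw [hFm, hδm, eval_map_algebraMap, aeval_algebraMap_apply_eq_algebraMap_eval, ← map_mul,
        ← map_sub, hx]
    · rw [hFm, hδm, eval_map_algebraMap, aeval_algebraMap_apply_eq_algebraMap_eval, ← map_mul,
        ← map_sub, hy]
    · have hw2 : ∀ x : L, w'.val (algebraMap L L' x) = w.val x ^ m := hw'
      rw [hFm, hδm, leadingCoeff_map, natDegree_map, ← map_sub, hw2, hw2, hw2, ← pow_mul,
        mul_comm m, pow_mul, ← mul_pow]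
      have h0 : 0 ≤ w.val (algebraMap K L δ) := w.val.nonneg _
      have h1 : max 1 (w.val (algebraMap K L δ) ^ m) = (max 1 (w.val (algebraMap K L δ))) ^ m := by
        rcases le_total 1 (w.val (algebraMap K L δ)) with h2 | h2
        · rw [max_eq_right h2, max_eq_right (one_le_pow₀ h2)]
        · rw [max_eq_left h2, max_eq_left (pow_le_one₀ h0 h2), one_pow]
      rw [h1]
      refine pow_lt_pow_left₀ hxy ?_ (by omega)
      exact zero_le_one.trans (le_max_left _ _)

theorem bad_of_tower {K : Type u} [Field K] [NumberField K] {E : Type u} [Field E] [NumberField E]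
    [Algebra K E] {L : Type u} [Field L] [NumberField L] [Algebra E L] {F : K[X]} {δ : K}
    {v : FinitePlace K} {v' : FinitePlace E} {w : FinitePlace L} {k m : ℕ} (hk : 1 ≤ k)
    (hm : 1 ≤ m) (h : ∀ a : K, v' (algebraMap K E a) = v a ^ k)
    (h' : ∀ x : E, w (algebraMap E L x) = v' x ^ m)
    (hfar : FixedPointsFar w.val ((F.map (algebraMap K E)).map (algebraMap E L))
      (algebraMap E L (algebraMap K E δ))) :
    v ∈ badPlaces F δ := by
  let _ : Algebra K L := ((algebraMap E L).comp (algebraMap K E)).toAlgebra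
  have hc : ∀ a : K, algebraMap K L a = algebraMap E L (algebraMap K E a) := fun a => rfl
  refine bad_of_ext (L := L) (w := w) (k := k * m) (Nat.mul_pos hk hm) ?_ ?_
  · intro a
    rw [hc, h', h, ← pow_mul]
  · rw [Polynomial.map_map] at hfar
    exact hfar

theorem tightPlacesLE_subset {K : Type u} [Field K] [NumberField K] (κ : ℝ) (B : ℕ) {d : ℕ}
    (hd : 2 ≤ d) {F : K[X]} (hF : F.natDegree = d) (δ : K) :
    tightPlacesLE κ B d F δ ⊆ badPlaces F δ := by
  rintro v ⟨E, hE, v', k, -, hk, hvk, ht⟩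
  obtain ⟨L, hL, w, m, hm, hw, hfar⟩ :=
    tightPlaces_subset κ hd (by rw [natDegree_map]; exact hF) _ ht
  exact bad_of_tower hk hm hvk hw hfar

/-- The periodic points with coordinates in an extension. -/
theorem perIn_ncard_le {K : Type u} [Field K] (F : K[X]) (δ : K)
    (E : IntermediateField K (AlgebraicClosure K))
    (h : (perRat (F.map (algebraMap K E)) (algebraMap K E δ)).Finite) :
    (perIn F δ E).Finite ∧ (perIn F δ E).ncard ≤
      (perRat (F.map (algebraMap K E)) (algebraMap K E δ)).ncard := by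
  have hsub : perIn F δ E ⊆ (fun P : E × E => ((P.1 : AlgebraicClosure K),
      (P.2 : AlgebraicClosure K))) '' perRat (F.map (algebraMap K E)) (algebraMap K E δ) := by
    rintro ⟨x, y⟩ ⟨hx, hy, n, hn, hP⟩
    refine ⟨(⟨x, hx⟩, ⟨y, hy⟩), ⟨n, hn, ?_⟩, rfl⟩
    have h1 := henon_iterate_coe F δ E _ rfl n ((⟨x, hx⟩, ⟨y, hy⟩) : E × E)
    have h2 : (henon F δ)^[n] ((x : AlgebraicClosure K), (y : AlgebraicClosure K)) = (x, y) := hP
    rw [h2, Prod.mk.injEq] at h1
    apply Prod.ext
    · exact Subtype.ext h1.1.symm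
    · exact Subtype.ext h1.2.symm
  exact ⟨(h.image _).subset hsub,
    (Set.ncard_le_ncard hsub (h.image _)).trans (Set.ncard_image_le h)⟩

theorem henon_mem {K : Type u} [Field K] (F : K[X]) (δ : K)
    (E : IntermediateField K (AlgebraicClosure K)) {P : AlgebraicClosure K × AlgebraicClosure K}
    (h1 : P.1 ∈ E) (h2 : P.2 ∈ E) : (henon F δ P).1 ∈ E ∧ (henon F δ P).2 ∈ E := by
  refine ⟨h2, ?_⟩
  have h3 : aeval P.2 F ∈ E := by
    have : aeval ((⟨P.2, h2⟩ : E) : AlgebraicClosure K) F =
        ((aeval (⟨P.2, h2⟩ : E) F : E) : AlgebraicClosure K) :=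
      aeval_algebraMap_apply (AlgebraicClosure K) (⟨P.2, h2⟩ : E) F
    show aeval P.2 F ∈ E
    rw [this]
    exact SetLike.coe_mem _
  exact E.sub_mem h3 (E.mul_mem (E.algebraMap_mem δ) h1)

/-- The period of a periodic point is at most the number of the periodic points with coordinates in
an extension over which it is defined. -/
theorem period_le {K : Type u} [Field K] (F : K[X]) (δ : K)
    (E : IntermediateField K (AlgebraicClosure K)) (hfin : (perIn F δ E).Finite)
    {P : AlgebraicClosure K × AlgebraicClosure K} (hP : P ∈ perIn F δ E) :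
    ∃ n, 1 ≤ n ∧ n ≤ (perIn F δ E).ncard ∧ (henon F δ)^[n] P = P := by
  obtain ⟨h1, h2, m, hm, hPm⟩ := hP
  set f := henon F δ with hf
  have hper : IsPeriodicPt f m P := hPm
  set n := minimalPeriod f P with hn
  have hn0 : 0 < n := hper.minimalPeriod_pos hm
  refine ⟨n, hn0, ?_, isPeriodicPt_minimalPeriod f P⟩
  have hmem : ∀ i : ℕ, (f^[i] P).1 ∈ E ∧ (f^[i] P).2 ∈ E := by
    intro i
    induction i with
    | zero => exact ⟨h1, h2⟩
    | succ i ih =>
      rw [iterate_succ_apply']
      exact henon_mem F δ E ih.1 ih.2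
  have hsub : (fun i : ℕ => f^[i] P) '' (Finset.range n : Set ℕ) ⊆ perIn F δ E := by
    rintro _ ⟨i, -, rfl⟩
    refine ⟨(hmem i).1, (hmem i).2, m, hm, ?_⟩
    show f^[m] (f^[i] P) = f^[i] P
    rw [← iterate_add_apply, add_comm, iterate_add_apply, hPm]
  have hinj : Set.InjOn (fun i : ℕ => f^[i] P) (Finset.range n : Set ℕ) := by
    intro i hi j hj hij
    rw [Finset.coe_range, Set.mem_Iio] at hi hj
    exact iterate_injOn_Iio_minimalPeriod hi hj hij
  have h3 := Set.ncard_le_ncard hsub hfin
  rw [Set.InjOn.ncard_image hinj, Set.ncard_coe_finset, Finset.card_range] at h3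
  exact h3

/-- The bound for the periodic points of degree at most `B` over a number field of degree `D`. -/
theorem deg_bound (D B d : ℕ) (hd : 2 ≤ d) :
    ∃ (C : ℝ) (c : ℕ → ℝ),
    ∀ (K : Type u) [Field K] [NumberField K],
    finrank ℚ K = D → ∀ (F : K[X]) (δ : K), F.natDegree = d → δ ≠ 0 → ∀ κ : ℝ, 0 < κ →
      tightPlacesLE κ B d F δ ⊆ badPlaces F δ ∧ (badPlaces F δ).Finite ∧
      ∃ N : ℕ, (N : ℝ) ≤ C * ((1 + 1 / κ + (tightPlacesLE κ B d F δ).ncard +
        min (Height.logHeight₁ δ) (c (badPlaces F δ).ncard)) *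
        (1 + Real.log (1 + 1 / κ + (tightPlacesLE κ B d F δ).ncard +
          min (Height.logHeight₁ δ) (c (badPlaces F δ).ncard)))) ^ 4 ∧
      (∀ E : IntermediateField K (AlgebraicClosure K), FiniteDimensional K E → finrank K E ≤ B →
        (perIn F δ E).Finite ∧ (perIn F δ E).ncard ≤ N) ∧
      (perLE F δ B).Finite ∧ (perLE F δ B).ncard ≤ d ^ (N + 1) := by
  classical
  choose Ct hCt0 hCt using fun n : ℕ => tight_bound.{u} (D * n) d hd
  obtain ⟨C₃, hC₃⟩ := Eng.main_bound.{u} D d hd
  set C₁ : ℝ := ∑ n ∈ Finset.range (B + 1), Ct n * (n * (1 + log n)) ^ 4 with hC₁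
  refine ⟨max C₁ 1, fun s => ((d ^ (Nat.nth Nat.Prime s ^ (12 * (B * D)) + 1) : ℕ) : ℝ), ?_⟩
  intro K _ _ hK F δ hF hδ κ hκ
  have hκ' : 0 ≤ 1 / κ := by positivity
  obtain ⟨hb, -, -⟩ := hC₃ K hK F δ hF hδ
  have hsubset := tightPlacesLE_subset κ B hd hF δ
  have hbf : (tightPlacesLE κ B d F δ).Finite := hb.subset hsubset
  refine ⟨hsubset, hb, ?_⟩
  set s := (tightPlacesLE κ B d F δ).ncard with hs
  set c : ℝ := ((d ^ (Nat.nth Nat.Prime (badPlaces F δ).ncard ^ (12 * (B * D)) + 1) : ℕ) : ℝ)
    with hc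
  set h := Height.logHeight₁ δ with hh
  have hc0 : 0 ≤ c := Nat.cast_nonneg _
  have hs0 : (0 : ℝ) ≤ s := Nat.cast_nonneg s
  have hh0 : 0 ≤ h := Height.zero_le_logHeight₁ δ
  have hm0 : 0 ≤ min h c := le_min hh0 hc0
  set Y : ℝ := 1 + 1 / κ + s + min h c with hY
  have hY1 : 1 ≤ Y := by rw [hY]; linarith
  have hlogY : 0 ≤ Real.log Y := Real.log_nonneg hY1
  set X : ℝ := max C₁ 1 * (Y * (1 + Real.log Y)) ^ 4 with hX
  have hX0 : 0 ≤ X := by
    have : 0 ≤ max C₁ 1 := zero_le_one.trans (le_max_right _ _)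
    positivity
  -- the bound over an extension
  have hkey : ∀ E : IntermediateField K (AlgebraicClosure K), FiniteDimensional K E →
      finrank K E ≤ B → (perIn F δ E).Finite ∧ (perIn F δ E).ncard ≤ ⌊X⌋₊ := by
    intro E hE hEB
    have hfdQ : FiniteDimensional ℚ E := FiniteDimensional.trans ℚ K E
    have hnf : NumberField E := { to_charZero := inferInstance, to_finiteDimensional := hfdQ }
    set n := finrank K E with hndef
    have hn1 : 1 ≤ n := Module.finrank_pos
    have hdeg : finrank ℚ E = D * n := by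
      rw [← Module.finrank_mul_finrank ℚ K E, hK]
    have hδE : algebraMap K E δ ≠ 0 := (_root_.map_ne_zero _).mpr hδ
    obtain ⟨htf, hpf, hbound⟩ := hCt n E hdeg (F.map (algebraMap K E)) (algebraMap K E δ)
      (by rw [natDegree_map]; exact hF) hδE κ hκ
    obtain ⟨hfin, hcard⟩ := perIn_ncard_le F δ E hpf
    refine ⟨hfin, Nat.le_floor ?_⟩
    rcases le_total h c with hhc | hhc
    · -- small height of the Jacobian
      have hmin : min h c = h := min_eq_left hhc
      have hst : (tightPlaces κ d (F.map (algebraMap K E)) (algebraMap K E δ)).ncard ≤ n * s := by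
        refine (places_above (K := K) E (tightPlacesLE κ B d F δ) hbf _ ?_).2
        intro w hw
        obtain ⟨v, k, hk, hvk⟩ := exists_place_under (K := K) w
        exact ⟨v, ⟨E, hnf, w, k, hEB, hk, hvk, hw⟩, k, hk, hvk⟩
      have hlogE : logHeight₁ (algebraMap K E δ) = n * h := by
        rw [logHeight₁, mulHeight₁_ext, log_pow]
        rfl
      rw [hlogE] at hbound
      set Z : ℝ := 1 + 1 / κ +
        ((tightPlaces κ d (F.map (algebraMap K E)) (algebraMap K E δ)).ncard : ℝ) + n * h with hZ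
      have hn1' : (1 : ℝ) ≤ n := by exact_mod_cast hn1
      have hZ1 : 1 ≤ Z := by
        have h1 : (0 : ℝ) ≤
            ((tightPlaces κ d (F.map (algebraMap K E)) (algebraMap K E δ)).ncard : ℝ) :=
          Nat.cast_nonneg _
        have h2 : 0 ≤ (n : ℝ) * h := by positivity
        rw [hZ]; linarith
      have hZY : Z ≤ n * Y := by
        have h1 : ((tightPlaces κ d (F.map (algebraMap K E)) (algebraMap K E δ)).ncard : ℝ) ≤
            n * s := by exact_mod_cast hst
        have h2 : 1 * (1 + 1 / κ) ≤ n * (1 + 1 / κ) :=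
          mul_le_mul_of_nonneg_right hn1' (by linarith)
        have h3 : n * Y = n * (1 + 1 / κ) + n * s + n * h := by
          rw [hY, hmin]; ring
        rw [hZ, h3]
        linarith
      have h2 := scale4 hn1' hY1 hZ1 hZY
      have h3 : Ct n * (n * (1 + log n)) ^ 4 ≤ C₁ := by
        refine Finset.single_le_sum (f := fun n : ℕ => Ct n * ((n : ℝ) * (1 + log n)) ^ 4)
          (fun i _ => ?_) (Finset.mem_range.mpr (by omega))
        exact mul_nonneg (hCt0 _) (by positivity)
      calc ((perIn F δ E).ncard : ℝ)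
          ≤ ((perRat (F.map (algebraMap K E)) (algebraMap K E δ)).ncard : ℝ) := by
            exact_mod_cast hcard
        _ ≤ Ct n * (Z * (1 + log Z)) ^ 4 := hbound
        _ ≤ Ct n * ((n * (1 + log n)) ^ 4 * (Y * (1 + log Y)) ^ 4) :=
            mul_le_mul_of_nonneg_left h2 (hCt0 _)
        _ = Ct n * (n * (1 + log n)) ^ 4 * (Y * (1 + log Y)) ^ 4 := by ring
        _ ≤ max C₁ 1 * (Y * (1 + log Y)) ^ 4 :=
            mul_le_mul_of_nonneg_right (h3.trans (le_max_left _ _)) (by positivity)
    · -- large height of the Jacobian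
      have hmin : min h c = c := min_eq_right hhc
      obtain ⟨h4, h5, _⟩ := BP.bound_of_number (B := B) hd hF hδ (le_refl _)
      rw [hK] at h5
      have h6 : perIn F δ E ⊆ perLE F δ B := by
        rintro P ⟨hP1, hP2, hP3⟩
        refine ⟨hP3, ?_⟩
        have h7 : IntermediateField.adjoin K ({P.1, P.2} : Set (AlgebraicClosure K)) ≤ E := by
          rw [IntermediateField.adjoin_le_iff]
          rintro x (rfl | rfl)
          · exact hP1
          · exact hP2
        exact (IntermediateField.finrank_le_of_le_right h7).trans hEB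
      have h7 : ((perIn F δ E).ncard : ℝ) ≤ c := by
        have := (Set.ncard_le_ncard h6 h4).trans h5
        rw [hc]
        exact_mod_cast this
      have h8 : Y ≤ Y * (1 + Real.log Y) := by nlinarith
      have h9 : 1 ≤ Y * (1 + Real.log Y) := hY1.trans h8
      have h10 : Y * (1 + Real.log Y) ≤ (Y * (1 + Real.log Y)) ^ 4 :=
        le_self_pow₀ h9 (by norm_num)
      calc ((perIn F δ E).ncard : ℝ) ≤ c := h7
        _ ≤ Y := by rw [hY, hmin]; linarith
        _ ≤ (Y * (1 + Real.log Y)) ^ 4 := h8.trans h10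
        _ = 1 * (Y * (1 + Real.log Y)) ^ 4 := (one_mul _).symm
        _ ≤ max C₁ 1 * (Y * (1 + Real.log Y)) ^ 4 :=
            mul_le_mul_of_nonneg_right (le_max_right _ _) (by positivity)
  refine ⟨⌊X⌋₊, Nat.floor_le hX0, hkey, ?_⟩
  refine BP.finite_of_period (δ := δ) hd hF ⌊X⌋₊ _ ?_
  intro P hP
  set E := IntermediateField.adjoin K ({P.1, P.2} : Set (AlgebraicClosure K)) with hE
  have hfd : FiniteDimensional K E := by
    apply IntermediateField.finiteDimensional_adjoin
    intro x _
    exact (AlgebraicClosure.isAlgebraic K).isAlgebraic x |>.isIntegral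
  have h1 : P.1 ∈ E := IntermediateField.subset_adjoin K _ (by simp)
  have h2 : P.2 ∈ E := IntermediateField.subset_adjoin K _ (by simp)
  obtain ⟨hfin, hcard⟩ := hkey E hfd hP.2
  obtain ⟨n, hn, hn2, hn3⟩ := period_le F δ E hfin (P := P) ⟨h1, h2, hP.1⟩
  exact ⟨n, hn, hn2.trans hcard, hn3⟩

end Pool.Agent.H.MP_0e6b5f_nt.Sp
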