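import Pool.Agent.H.MP_0e6b5f_nt.Sp.Main
import Pool.Agent.H.MP_0e6b5f_nt.Df.Fin
import Pool.Agent.H.MP_0e6b5f_nt.DefsTight

/-!
# The bound for all Henon maps in terms of the number of tight places of bad reduction
-/

namespace Pool.Agent.H.MP_0e6b5f_nt.Sp

open Pool.Agent.H.MP_0e6b5f_nt Pool.Agent.H.MP_0e6b5f_nt.Dom Pool.Agent.H.MP_0e6b5f_nt.Eng
open NumberField Module Polynomial
open Height Height.AdmissibleAbsValues Function Real

/-- The normalised diameter as a power of the diameter in the coordinates of the normal form. -/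
theorem rho_pow {L : Type*} [Field L] {d : ℕ} (hd : 2 ≤ d) {a δ c μ : L} (hc : c ^ (d - 1) = a)
    (hμ : μ ^ (d - 1) = δ) (ζ : Fin d → L) (i₀ : Fin d) (w : AbsoluteValue L ℝ) :
    rho (fun i => c * (ζ i - ζ i₀)) μ w ^ (d - 1) = fixDiam w a δ ζ := by
  have h1 := Df.rho_fixDiam (E := L) hd (a := a) (δ := δ) (c := c) (μ := μ) (by simpa using hc)
    (by simpa using hμ) ζ i₀ w w 1 (fun x => by simp)
  simpa using h1

/-- The height of the data in terms of the height in the coordinates of the normal form. -/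
theorem fixHeight_eq {L : Type*} [Field L] [NumberField L] {d : ℕ} {a δ c : L}
    (hc : c ^ (d - 1) = a) (ζ : Fin d → L) (i₀ : Fin d) :
    fixHeight a δ ζ = ((d - 1 : ℕ) : ℝ) * log (mulHeight (tup (fun i => c * (ζ i - ζ i₀)))) +
      log (mulHeight₁ δ) := by
  set X : Option (Fin d × Fin d) → L := tup (fun i => c * (ζ i - ζ i₀)) with hX
  have h1 : X ^ (d - 1) = fun o => o.elim 1 (fun p => a * (ζ p.1 - ζ p.2) ^ (d - 1)) := by
    funext o
    cases o with
    | none => simp [hX, tup]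
    | some p =>
      have e1 : X (some p) = c * (ζ p.1 - ζ p.2) := by
        simp only [hX, tup, Option.elim_some]
        ring
      rw [Pi.pow_apply, e1, mul_pow, hc]
      simp only [Option.elim_some]
  have h2 : fixHeight a δ ζ = log (mulHeight (X ^ (d - 1))) + log (mulHeight₁ δ) := by
    rw [h1]; rfl
  rw [h2, mulHeight_pow, log_pow]

theorem tightPlaces_subset {K : Type*} [Field K] [NumberField K] (κ : ℝ) {d : ℕ} (hd : 2 ≤ d)
    {F : K[X]} (hF : F.natDegree = d) (δ : K) : tightPlaces κ d F δ ⊆ badPlaces F δ := by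
  rintro v ⟨L, hL, w, k, ζ, hk, hvk, hFL, hR, -⟩
  refine ⟨L, hL, w, k, hk, hvk, ?_⟩
  set a := algebraMap K L F.leadingCoeff with ha
  set δ' := algebraMap K L δ with hδ'
  have hne : Nonempty (Fin d × Fin d) := ⟨(⟨0, by omega⟩, ⟨0, by omega⟩)⟩
  obtain ⟨p, hp⟩ := exists_eq_ciSup_of_finite
    (f := fun p : Fin d × Fin d => normSize w.val a δ' d (ζ p.1 - ζ p.2))
  have hfix : ∀ i, (F.map (algebraMap K L)).eval (ζ i) - δ' * ζ i = ζ i := by
    intro i
    rw [hFL]
    simp only [eval_add, eval_mul, eval_C, eval_X, eval_prod, eval_sub]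
    rw [Finset.prod_eq_zero (Finset.mem_univ i) (sub_self _)]
    ring
  refine ⟨ζ p.1, ζ p.2, hfix _, hfix _, ?_⟩
  have h1 : 1 < normSize w.val a δ' d (ζ p.1 - ζ p.2) := by
    rw [fixDiam, ← hp] at hR
    exact hR
  rw [normSize, one_lt_div (lt_max_of_lt_left one_pos)] at h1
  rw [leadingCoeff_map, natDegree_map, hF]
  exact h1

universe u

/-- The comparison constant. -/
noncomputable def cK (D d : ℕ) (B : ℝ) : ℝ :=
  1 + 3 * (D * ((3 * d).factorial : ℝ)) + ((3 * d).factorial : ℝ) +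
    2 * (d * ((3 * d).factorial : ℝ)) +
    2 * ((D * ((3 * d).factorial : ℝ) + ((3 * d).factorial : ℝ)) * log B)

theorem cK_ge {D d : ℕ} {B : ℝ} (hB : 1 ≤ B) : 1 ≤ cK D d B := by
  have h1 : 0 ≤ log B := log_nonneg hB
  have h2 : (0 : ℝ) ≤ D := Nat.cast_nonneg _
  have h3 : (0 : ℝ) ≤ ((3 * d).factorial : ℝ) := Nat.cast_nonneg _
  have h4 : (0 : ℝ) ≤ d := Nat.cast_nonneg _
  have h6 : 0 ≤ 3 * (D * ((3 * d).factorial : ℝ)) := by positivity
  have h7 : 0 ≤ 2 * (d * ((3 * d).factorial : ℝ)) := by positivity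
  have h8 : 0 ≤ 2 * ((D * ((3 * d).factorial : ℝ) + ((3 * d).factorial : ℝ)) * log B) := by
    positivity
  unfold cK
  linarith

/-- The comparison of the ratio with `1 + 1 / κ + s + h`. -/
theorem ratio_bound {D d : ℕ} {κ B n s h Δ H l lB : ℝ} (hκ : 0 < κ) (hB : 2 ≤ B)
    (hn1 : 1 ≤ n) (hn : n ≤ ((3 * d).factorial : ℝ)) (hs : 0 ≤ s) (hh : 0 ≤ h) (hΔ : 0 ≤ Δ)
    (hl : (1 : ℝ) / 2 ≤ l)
    (hH : H ≤ (D * n + n * s) * lB + Δ / κ + d * (n * h)) (hcase : lB ≤ l ∨ lB ≤ log B) :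
    1 + (D * n + H) / (l + Δ) ≤ cK D d B * (1 + 1 / κ + s + h) := by
  have hlogB : 0 ≤ log B := log_nonneg (by linarith)
  have hD : (0 : ℝ) ≤ D := Nat.cast_nonneg _
  have hd : (0 : ℝ) ≤ d := Nat.cast_nonneg _
  set N : ℝ := ((3 * d).factorial : ℝ) with hN
  have hN1 : 1 ≤ N := hn1.trans hn
  have hn0 : 0 ≤ n := by linarith
  have hκ' : 0 ≤ 1 / κ := by positivity
  have hden : 0 < l + Δ := by linarith
  have hP : 0 ≤ D * n + n * s := by positivity
  have e1 : (D * n + H) / (l + Δ) ≤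
      2 * (D * n) + (D * n + n * s) * (1 + 2 * log B) + 1 / κ + 2 * (d * (n * h)) := by
    rw [div_le_iff₀ hden]
    have a1 : (D * n : ℝ) ≤ 2 * (D * n) * (l + Δ) := by
      have : 0 ≤ (D : ℝ) * n := by positivity
      nlinarith
    have a2 : (D * n + n * s) * lB ≤ (D * n + n * s) * (1 + 2 * log B) * (l + Δ) := by
      rw [mul_assoc]
      refine mul_le_mul_of_nonneg_left ?_ hP
      rcases hcase with h1 | h1
      · have : 0 ≤ 2 * log B * (l + Δ) := by positivity
        nlinarith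
      · have : 0 ≤ log B * (2 * (l + Δ) - 1) := by
          apply mul_nonneg hlogB
          linarith
        nlinarith
    have a3 : Δ / κ ≤ 1 / κ * (l + Δ) := by
      have e2 : Δ / κ = 1 / κ * Δ := by ring
      rw [e2]
      refine mul_le_mul_of_nonneg_left ?_ hκ'
      linarith
    have a4 : d * (n * h) ≤ 2 * (d * (n * h)) * (l + Δ) := by
      have : 0 ≤ (d : ℝ) * (n * h) := by positivity
      nlinarith
    calc D * n + H ≤ D * n + ((D * n + n * s) * lB + Δ / κ + d * (n * h)) := by linarith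
      _ ≤ 2 * (D * n) * (l + Δ) + ((D * n + n * s) * (1 + 2 * log B) * (l + Δ) +
          1 / κ * (l + Δ) + 2 * (d * (n * h)) * (l + Δ)) := by linarith
      _ = _ := by ring
  have b1 : (D : ℝ) * n ≤ D * N := mul_le_mul_of_nonneg_left hn hD
  have b2 : n * s ≤ N * s := mul_le_mul_of_nonneg_right hn hs
  have b3 : d * (n * h) ≤ d * (N * h) :=
    mul_le_mul_of_nonneg_left (mul_le_mul_of_nonneg_right hn hh) hd
  have b4 : (D * n + n * s) * (1 + 2 * log B) ≤ (D * N + N * s) * (1 + 2 * log B) :=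
    mul_le_mul_of_nonneg_right (by linarith) (by linarith)
  have b5 : 1 + (2 * (D * N) + (D * N + N * s) * (1 + 2 * log B) + 1 / κ + 2 * (d * (N * h))) ≤
      cK D d B * (1 + 1 / κ + s + h) := by
    have c1 : 0 ≤ (D : ℝ) * N := by positivity
    have c2 : 0 ≤ (d : ℝ) * N := by positivity
    have c3 : 0 ≤ (D : ℝ) * N * (s + h) := by positivity
    have c4 : 0 ≤ (cK D d B - 1) * (1 / κ) :=
      mul_nonneg (by linarith [cK_ge (D := D) (d := d) (B := B) (by linarith)]) hκ'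
    have c5 : 0 ≤ N * h := by positivity
    have c6 : 0 ≤ (d : ℝ) * N * s := by positivity
    have c7 : 0 ≤ (D * N) * log B * (s + h) := by positivity
    have c8 : 0 ≤ N * log B * (1 + h) := by positivity
    have e3 : cK D d B * (1 + s + h) = 1 + 2 * (D * N) + D * N + N + 2 * (d * N) +
        2 * (D * N * log B) + N * s + 2 * (N * log B * s) + 2 * (d * (N * h)) + (s + h) +
        3 * ((D : ℝ) * N * (s + h)) + N * h + 2 * ((d : ℝ) * N * s) +
        2 * ((D * N) * log B * (s + h)) + 2 * (N * log B * (1 + h)) := by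
      unfold cK
      rw [← hN]
      ring
    have e4 : cK D d B * (1 + 1 / κ + s + h) =
        cK D d B * (1 + s + h) + (cK D d B - 1) * (1 / κ) + 1 / κ := by ring
    rw [e4, e3]
    nlinarith
  linarith

/-- The bound for all Henon maps of degree `d` over number fields of degree `D`. -/
theorem tight_bound (D d : ℕ) (hd : 2 ≤ d) : ∃ C : ℝ, 0 ≤ C ∧
    ∀ (K : Type u) [Field K] [NumberField K],
    finrank ℚ K = D → ∀ (F : K[X]) (δ : K), F.natDegree = d → δ ≠ 0 → ∀ κ : ℝ, 0 < κ →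
      (tightPlaces κ d F δ).Finite ∧ (perRat F δ).Finite ∧
      ((perRat F δ).ncard : ℝ) ≤ C * ((1 + 1 / κ + (tightPlaces κ d F δ).ncard + logHeight₁ δ) *
        (1 + log (1 + 1 / κ + (tightPlaces κ d F δ).ncard + logHeight₁ δ))) ^ 4 := by
  classical
  obtain ⟨C₁, R₀, hR₀, hC₁⟩ := Df.defect_bound.{u, u} d hd
  choose Cg hCg using fun N : ℕ => good_case.{u} N d hd
  obtain ⟨C₃, hC₃⟩ := Eng.main_bound.{u} D d hd
  set B : ℝ := max R₀ 2 with hB
  have hB2 : 2 ≤ B := le_max_right _ _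
  have hcK := cK_ge (D := D) (d := d) (by linarith : 1 ≤ B)
  have hlcK : 0 ≤ log (cK D d B) := log_nonneg hcK
  set Cs : ℝ := ∑ n ∈ Finset.range ((3 * d).factorial + 1), (Cg (D * n) : ℝ) with hCs
  have hCs0 : 0 ≤ Cs := Finset.sum_nonneg fun i _ => Nat.cast_nonneg _
  set C₂ : ℝ := max C₁ 0 with hC₂
  have hC₂0 : 0 ≤ C₂ := le_max_right _ _
  refine ⟨Cs + C₂ * (cK D d B * (1 + log (cK D d B))) ^ 4, by positivity, ?_⟩
  intro K _ _ hK F δ hF hδ κ hκ
  have hκ' : 0 ≤ 1 / κ := by positivity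
  obtain ⟨hbad, hper, -⟩ := hC₃ K hK F δ hF hδ
  have hbf : (tightPlaces κ d F δ).Finite := hbad.subset (tightPlaces_subset κ hd hF δ)
  refine ⟨hbf, hper, ?_⟩
  set s := (tightPlaces κ d F δ).ncard with hs
  set h := logHeight₁ δ with hh
  have hh0 : 0 ≤ h := zero_le_logHeight₁ δ
  have hs0 : (0 : ℝ) ≤ s := Nat.cast_nonneg s
  set Y : ℝ := 1 + 1 / κ + s + h with hY
  have hY1 : 1 ≤ Y := by rw [hY]; linarith
  have hlogY : 0 ≤ log Y := log_nonneg hY1
  have hYY : 1 ≤ (Y * (1 + log Y)) ^ 4 :=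
    one_le_pow₀ (one_le_mul_of_one_le_of_one_le hY1 (by linarith))
  obtain ⟨L, hL, c, μ, ζ, hn, hc, hμ, hFL⟩ := exists_ext hd F hF δ
  have hfdL : FiniteDimensional ℚ L := FiniteDimensional.trans ℚ K L
  have hnf : NumberField L := { to_charZero := inferInstance, to_finiteDimensional := hfdL }
  set n := finrank K L with hndef
  have hn1 : 1 ≤ n := Module.finrank_pos
  have hdeg : finrank ℚ L = D * n := by
    rw [← Module.finrank_mul_finrank ℚ K L, hK]
  set δ' := algebraMap K L δ with hδ'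
  have hδL : δ' ≠ 0 := (_root_.map_ne_zero _).mpr hδ
  have hμ0 : μ ≠ 0 := by
    rintro rfl
    apply hδL
    rw [← hμ, zero_pow (by omega)]
  set a := algebraMap K L F.leadingCoeff with ha
  have hlc : a = c ^ (d - 1) := by
    rw [ha, ← leadingCoeff_map (algebraMap K L), hFL, fixPoly_leadingCoeff hd hc]
  have hFL' : F.map (algebraMap K L) = C (1 + δ') * X + C a * ∏ i, (X - C (ζ i)) := by
    rw [hFL, hlc]; rfl
  have hlogL : log (mulHeight₁ δ') = n * h := by
    rw [hδ', mulHeight₁_ext, log_pow]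
    rfl
  have i₀ : Fin d := ⟨0, by omega⟩
  set ζ' : Fin d → L := fun i => c * (ζ i - ζ i₀) with hζ'
  have hrho : ∀ v : AbsoluteValue L ℝ, rho (fun i => c * ζ i) μ v = rho ζ' μ v := by
    intro v
    rw [rho, rho]
    congr 1
    apply iSup_congr
    intro p
    congr 1
    rw [hζ']; ring_nf
  have hRr : ∀ v : AbsoluteValue L ℝ, fixDiam v a δ' ζ = rho ζ' μ v ^ (d - 1) :=
    fun v => (rho_pow hd hlc.symm hμ ζ i₀ v).symm
  have hr0 : ∀ v : AbsoluteValue L ℝ, 0 ≤ rho ζ' μ v := fun v => Df.rho_nonneg _ _ _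
  have hd1 : d - 1 ≠ 0 := by omega
  have hd1' : (1 : ℝ) ≤ ((d - 1 : ℕ) : ℝ) := by exact_mod_cast (by omega : 1 ≤ d - 1)
  have hlogR : ∀ v : AbsoluteValue L ℝ, log (fixDiam v a δ' ζ) =
      ((d - 1 : ℕ) : ℝ) * log (rho ζ' μ v) := by
    intro v
    rw [hRr, log_pow]
  have hR1 : ∀ v : AbsoluteValue L ℝ, 1 < fixDiam v a δ' ζ ↔ 1 < rho ζ' μ v := by
    intro v
    rw [hRr]
    exact one_lt_pow_iff_of_nonneg (hr0 v) hd1
  -- the case without bad finite places
  by_cases hall : ∀ v : FinitePlace L, rho (fun i => c * ζ i) μ v.val ≤ 1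
  · have hcard : (perRat F δ).ncard ≤ Cg (D * n) := by
      rw [Set.ncard_eq_toFinset_card _ hper]
      have hinj : Function.Injective (fun P : K × K => (algebraMap K L P.1, algebraMap K L P.2)) := by
        intro P Q hPQ
        rw [Prod.mk.injEq] at hPQ
        exact Prod.ext ((algebraMap K L).injective hPQ.1) ((algebraMap K L).injective hPQ.2)
      rw [← Finset.card_image_of_injective _ hinj]
      refine hCg (D * n) L hdeg c δ' μ ζ hc hδL hμ hall _ ?_
      intro P hP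
      rw [Finset.mem_image] at hP
      obtain ⟨Q, hQ, rfl⟩ := hP
      rw [Set.Finite.mem_toFinset] at hQ
      obtain ⟨m, hm, hQm⟩ := hQ
      refine ⟨m, hm, ?_⟩
      have h1 := hen_map (L := L) F δ m Q
      rw [hFL] at h1
      rw [h1]
      have h2 : (hen F δ)^[m] Q = Q := hQm
      rw [h2]
    have h1 : ((perRat F δ).ncard : ℝ) ≤ Cs := by
      have h2 : ((perRat F δ).ncard : ℝ) ≤ Cg (D * n) := by exact_mod_cast hcard
      refine h2.trans ?_
      exact Finset.single_le_sum (f := fun n : ℕ => (Cg (D * n) : ℝ))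
        (fun i _ => Nat.cast_nonneg _) (Finset.mem_range.mpr (by omega))
    calc ((perRat F δ).ncard : ℝ) ≤ Cs := h1
      _ ≤ Cs + C₂ * (cK D d B * (1 + log (cK D d B))) ^ 4 := by
          have : 0 ≤ C₂ * (cK D d B * (1 + log (cK D d B))) ^ 4 := by positivity
          linarith
      _ ≤ _ := le_mul_of_one_le_right (by positivity) hYY
  push Not at hall
  obtain ⟨v₀, hv₀⟩ := hall
  rw [hrho] at hv₀
  have hv₀2 := two_le_rho hd ζ' hμ0 v₀ hv₀
  have hfinbad := bad_finite (K := L) ζ' μ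
  set V : Finset (nonarchAbsVal (K := L)) := hfinbad.toFinset with hV
  have hVmem : ∀ v, v ∈ V ↔ 1 < rho ζ' μ v.val := fun v => by
    rw [hV, Set.Finite.mem_toFinset]; rfl
  set Vd : Finset (nonarchAbsVal (K := L)) := V.filter (fun v =>
    κ * log (fixDiam v.val a δ' ζ) ≤ ratDefect K v.val a δ' ζ) with hVd
  set Vt : Finset (nonarchAbsVal (K := L)) := V.filter (fun v =>
    ¬ κ * log (fixDiam v.val a δ' ζ) ≤ ratDefect K v.val a δ' ζ) with hVt
  have hVtc : Vt.card ≤ n * s := by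
    have e1 := (places_above (K := K) L (tightPlaces κ d F δ) hbf
      {w : FinitePlace L | 1 < fixDiam w.val a δ' ζ ∧
        ratDefect K w.val a δ' ζ < κ * log (fixDiam w.val a δ' ζ)} (by
      rintro w ⟨hw, hw2⟩
      obtain ⟨v, k, hk, hvk⟩ := exists_place_under (K := K) w
      exact ⟨v, ⟨L, hnf, w, k, ζ, hk, hvk, hFL', hw, hw2⟩, k, hk, hvk⟩)).2
    have e2 : (Vt : Set (nonarchAbsVal (K := L))) =
        {w : FinitePlace L | 1 < fixDiam w.val a δ' ζ ∧
        ratDefect K w.val a δ' ζ < κ * log (fixDiam w.val a δ' ζ)} := by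
      ext v
      have e2 : v ∈ Vt ↔ 1 < fixDiam v.val a δ' ζ ∧
        ratDefect K v.val a δ' ζ < κ * log (fixDiam v.val a δ' ζ) := by
        rw [hVt, Finset.mem_filter, hVmem, hR1, not_le]
      exact e2
    have e3 : (Vt : Set (nonarchAbsVal (K := L))).ncard ≤ n * s := by rw [e2]; exact e1
    rwa [Set.ncard_coe_finset] at e3
  have hd0 : (0 : ℝ) ≤ d := Nat.cast_nonneg d
  have hn1' : (1 : ℝ) ≤ n := by exact_mod_cast hn1
  have hnN : (n : ℝ) ≤ ((3 * d).factorial : ℝ) := by exact_mod_cast hn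
  have hlogV : ∀ v ∈ V, 0 < log (rho ζ' μ v.val) := fun v hv => log_pos ((hVmem v).mp hv)
  set Δ := ∑ v ∈ Vd, ratDefect K v.val a δ' ζ with hΔ
  have hΔ0 : 0 ≤ Δ := Finset.sum_nonneg fun v _ => Df.ratDefect_nonneg K _ _ _ _
  -- the largest of the other diameters
  obtain ⟨w₁, hw₁⟩ : ∃ w, w ∈ archAbsVal (K := L) := by
    apply Multiset.card_pos_iff_exists_mem.mp
    have h1 : totalWeight L = Multiset.card (archAbsVal (K := L)) := rfl
    rw [← h1, totalWeight_eq_finrank]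
    exact Module.finrank_pos
  set U : Finset (AbsoluteValue L ℝ) :=
    (Vt.image (fun v => v.val)) ∪ (archAbsVal (K := L)).toFinset with hU
  have hUne : U.Nonempty := ⟨w₁, by
    rw [hU, Finset.mem_union]; right; exact Multiset.mem_toFinset.mpr hw₁⟩
  obtain ⟨w, hwU, hwmax⟩ := Finset.exists_max_image U (fun v => rho ζ' μ v) hUne
  set M := max 1 (rho ζ' μ w) with hM
  have hM1 : 1 ≤ M := le_max_left _ _
  have hlM : 0 ≤ log M := log_nonneg hM1
  have hdlM : 0 ≤ ((d - 1 : ℕ) : ℝ) * log M := by positivity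
  have hVtM : ∀ v ∈ Vt, rho ζ' μ v.val ≤ M := by
    intro v hv
    refine (hwmax v.val ?_).trans (le_max_right _ _)
    rw [hU, Finset.mem_union]
    left
    exact Finset.mem_image.mpr ⟨v, hv, rfl⟩
  have har : ∀ v ∈ archAbsVal (K := L), rho ζ' μ v ≤ M := by
    intro v hv
    refine (hwmax v ?_).trans (le_max_right _ _)
    rw [hU, Finset.mem_union]
    right
    exact Multiset.mem_toFinset.mpr hv
  have hdegL : ((totalWeight L : ℕ) : ℝ) = D * n := by
    rw [totalWeight_eq_finrank, hdeg]; push_cast; rfl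
  have hH : fixHeight a δ' ζ ≤ (D * n + n * s) * (((d - 1 : ℕ) : ℝ) * log M) + Δ / κ +
      d * (n * h) := by
    have h1 := log_mulHeight_le hd ζ' hμ V (fun v hv => (hVmem v).mpr hv)
      (fun v hv => (hVmem v).mp hv) hM1 har
    rw [hlogL, hdegL, log_mul (mulHeight_pos _).ne' (mulHeight₁_pos _).ne', hlogL] at h1
    rw [fixHeight_eq hlc.symm ζ i₀, hlogL]
    have hsplit : ∑ v ∈ V, log (rho ζ' μ v.val) =
        ∑ v ∈ Vd, log (rho ζ' μ v.val) + ∑ v ∈ Vt, log (rho ζ' μ v.val) :=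
      (Finset.sum_filter_add_sum_filter_not V _ _).symm
    have h2 : ((d - 1 : ℕ) : ℝ) * ∑ v ∈ Vd, log (rho ζ' μ v.val) ≤ Δ / κ := by
      rw [le_div_iff₀ hκ, Finset.mul_sum, Finset.sum_mul, hΔ]
      refine Finset.sum_le_sum fun v hv => ?_
      have h3 := (Finset.mem_filter.mp hv).2
      rw [hlogR] at h3
      linarith
    have h3 : ∑ v ∈ Vt, log (rho ζ' μ v.val) ≤ n * s * log M := by
      calc ∑ v ∈ Vt, log (rho ζ' μ v.val) ≤ ∑ _v ∈ Vt, log M :=
            Finset.sum_le_sum fun v hv => log_le_log (by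
              have := (hVmem v).mp (Finset.mem_of_mem_filter v hv)
              linarith) (hVtM v hv)
        _ = Vt.card * log M := by rw [Finset.sum_const, nsmul_eq_mul]
        _ ≤ n * s * log M := mul_le_mul_of_nonneg_right (by exact_mod_cast hVtc) hlM
    have hnh : 0 ≤ (n : ℝ) * h := by positivity
    have h4 : ((d - 1 : ℕ) : ℝ) = d - 1 := by
      rw [Nat.cast_sub (by omega)]; simp
    have h5 : log (mulHeight (tup ζ')) ≤ D * n * log M +
        (∑ v ∈ Vd, log (rho ζ' μ v.val) + n * s * log M) + n * h := by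
      linarith
    have h6 := mul_le_mul_of_nonneg_left h5 (by linarith : (0 : ℝ) ≤ ((d - 1 : ℕ) : ℝ))
    have h7 : ((d - 1 : ℕ) : ℝ) * (n * h) + n * h = d * (n * h) := by rw [h4]; ring
    have h8 : ((d - 1 : ℕ) : ℝ) * (D * n * log M +
        (∑ v ∈ Vd, log (rho ζ' μ v.val) + n * s * log M) + n * h) =
        (D * n + n * s) * (((d - 1 : ℕ) : ℝ) * log M) +
          ((d - 1 : ℕ) : ℝ) * ∑ v ∈ Vd, log (rho ζ' μ v.val) +
          ((d - 1 : ℕ) : ℝ) * (n * h) := by ring
    rw [h8] at h6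
    linarith
  have hH0 : 0 ≤ fixHeight a δ' ζ := add_nonneg (logHeight_nonneg _) (zero_le_logHeight₁ _)
  -- conclusion from a good place
  have hfinish : ∀ w' : AbsoluteValue L ℝ, GoodPlace R₀ w' F.leadingCoeff δ ζ →
      (1 : ℝ) / 2 ≤ log (fixDiam w' a δ' ζ) →
      (((d - 1 : ℕ) : ℝ) * log M ≤ log (fixDiam w' a δ' ζ) ∨
        ((d - 1 : ℕ) : ℝ) * log M ≤ log B) →
      ((perRat F δ).ncard : ℝ) ≤ (Cs + C₂ * (cK D d B * (1 + log (cK D d B))) ^ 4) *
        (Y * (1 + log Y)) ^ 4 := by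
    intro w' hw' hl hcase
    have h1 := (hC₁ K L F δ ζ w' Vd hF hδ hFL' hw').2
    have hQ : defectRatio w' Vd F.leadingCoeff δ ζ = 1 + (D * n + fixHeight a δ' ζ) /
        (log (fixDiam w' a δ' ζ) + Δ) := by
      have h4 : defectRatio w' Vd F.leadingCoeff δ ζ = 1 + (((finrank ℚ L : ℕ) : ℝ) + fixHeight a δ' ζ) /
          (|log (fixDiam w' a δ' ζ)| + Δ) := rfl
      rw [h4, abs_of_pos (by linarith), hdeg]
      push_cast
      rfl
    have hQ2 : defectRatio w' Vd F.leadingCoeff δ ζ ≤ cK D d B * Y := by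
      rw [hQ]
      exact ratio_bound hκ hB2 hn1' hnN hs0 hh0 hΔ0 hl hH hcase
    have hQ1 : 1 ≤ defectRatio w' Vd F.leadingCoeff δ ζ := by
      rw [hQ]
      have : 0 ≤ (D * n + fixHeight a δ' ζ) / (log (fixDiam w' a δ' ζ) + Δ) := by
        apply div_nonneg
        · positivity
        · linarith
      linarith
    have hlQ : 0 ≤ log (defectRatio w' Vd F.leadingCoeff δ ζ) := log_nonneg hQ1
    have h2 := scale4 hcK hY1 hQ1 hQ2
    calc ((perRat F δ).ncard : ℝ) ≤ C₁ * (defectRatio w' Vd F.leadingCoeff δ ζ *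
          (1 + log (defectRatio w' Vd F.leadingCoeff δ ζ))) ^ 4 := h1
      _ ≤ C₂ * (defectRatio w' Vd F.leadingCoeff δ ζ *
          (1 + log (defectRatio w' Vd F.leadingCoeff δ ζ))) ^ 4 :=
          mul_le_mul_of_nonneg_right (le_max_left _ _) (by positivity)
      _ ≤ C₂ * ((cK D d B * (1 + log (cK D d B))) ^ 4 * (Y * (1 + log Y)) ^ 4) :=
          mul_le_mul_of_nonneg_left h2 hC₂0
      _ = C₂ * (cK D d B * (1 + log (cK D d B))) ^ 4 * (Y * (1 + log Y)) ^ 4 := by ring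
      _ ≤ _ := mul_le_mul_of_nonneg_right (by linarith) (by positivity)
  have hhalf : ∀ x : ℝ, 2 ≤ x → (1 : ℝ) / 2 ≤ log x := by
    intro x hx
    have h2 := log_le_log (by norm_num) hx
    have := log_two_gt_d9
    linarith
  rcases le_or_gt B (fixDiam w a δ' ζ) with hbig | hsmall
  · -- one large place
    have h2w : 2 ≤ fixDiam w a δ' ζ := hB2.trans hbig
    have hrw : 1 < rho ζ' μ w := (hR1 w).mp (by linarith)
    have hMw : M = rho ζ' μ w := max_eq_right hrw.le
    refine hfinish w ?_ (hhalf _ h2w) (Or.inl (by rw [hMw, hlogR]))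
    rw [hU, Finset.mem_union] at hwU
    rcases hwU with h1 | h1
    · rw [Finset.mem_image] at h1
      obtain ⟨u, _, hu⟩ := h1
      left
      exact ⟨hu ▸ u.property, by linarith⟩
    · right; left
      exact ⟨mem_multisetInfinitePlace.mp (Multiset.mem_toFinset.mp h1),
        (le_max_left R₀ 2).trans hbig⟩
  · -- all other places are small
    have hRv₀ : 2 ≤ fixDiam v₀.val a δ' ζ := by
      rw [hRr]
      exact hv₀2.trans (le_self_pow₀ (by linarith) hd1)
    refine hfinish v₀.val (Or.inl ⟨v₀.isFinitePlace, by linarith⟩) (hhalf _ hRv₀) (Or.inr ?_)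
    rcases le_total (rho ζ' μ w) 1 with h1 | h1
    · have : M = 1 := max_eq_left h1
      rw [this, log_one, mul_zero]
      exact log_nonneg (by linarith)
    · have h2 : M = rho ζ' μ w := max_eq_right h1
      rw [h2, ← hlogR]
      refine log_le_log ?_ hsmall.le
      rw [hRr]
      positivity

/-- The bound with the height of `δ` replaced by its minimum with a function of the number of all
bad places. -/
theorem tight_bound_min (D d : ℕ) (hd : 2 ≤ d) :
    ∃ (C : ℝ) (c : ℕ → ℝ),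
    ∀ (K : Type u) [Field K] [NumberField K],
    finrank ℚ K = D → ∀ (F : K[X]) (δ : K), F.natDegree = d → δ ≠ 0 → ∀ κ : ℝ, 0 < κ →
      tightPlaces κ d F δ ⊆ badPlaces F δ ∧ (badPlaces F δ).Finite ∧ (perRat F δ).Finite ∧
      ((perRat F δ).ncard : ℝ) ≤ C * ((1 + 1 / κ + (tightPlaces κ d F δ).ncard +
        min (Height.logHeight₁ δ) (c (badPlaces F δ).ncard)) *
        (1 + Real.log (1 + 1 / κ + (tightPlaces κ d F δ).ncard +
          min (Height.logHeight₁ δ) (c (badPlaces F δ).ncard)))) ^ 4 := by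
  obtain ⟨C₁, -, hC₁⟩ := tight_bound.{u} D d hd
  obtain ⟨C₃, hC₃⟩ := Eng.main_bound.{u} D d hd
  refine ⟨max C₁ 1, fun s => ((d ^ (Nat.nth Nat.Prime s ^ (12 * (1 * D)) + 1) : ℕ) : ℝ), ?_⟩
  intro K _ _ hK F δ hF hδ κ hκ
  have hκ' : 0 ≤ 1 / κ := by positivity
  obtain ⟨h1, h2, h3⟩ := hC₁ K hK F δ hF hδ κ hκ
  obtain ⟨hb, -, -⟩ := hC₃ K hK F δ hF hδ
  refine ⟨tightPlaces_subset κ hd hF δ, hb, h2, ?_⟩
  set s := (tightPlaces κ d F δ).ncard with hs
  set c : ℝ := ((d ^ (Nat.nth Nat.Prime (badPlaces F δ).ncard ^ (12 * (1 * D)) + 1) : ℕ) : ℝ)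
    with hc
  have hc0 : 0 ≤ c := Nat.cast_nonneg _
  have hs0 : (0 : ℝ) ≤ s := Nat.cast_nonneg s
  have hh0 : 0 ≤ Height.logHeight₁ δ := Height.zero_le_logHeight₁ δ
  rcases le_total (Height.logHeight₁ δ) c with h | h
  · rw [min_eq_left h]
    refine h3.trans (mul_le_mul_of_nonneg_right (le_max_left _ _) ?_)
    have hlog : 0 ≤ Real.log (1 + 1 / κ + s + Height.logHeight₁ δ) :=
      Real.log_nonneg (by linarith)
    positivity
  · rw [min_eq_right h]
    set Y : ℝ := 1 + 1 / κ + s + c with hY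
    have hY1 : 1 ≤ Y := by linarith
    have hlog : 0 ≤ Real.log Y := Real.log_nonneg hY1
    obtain ⟨h4, h5, _⟩ := BP.bound_of_number (B := 1) hd hF hδ (le_refl _)
    have h6 : ((perRat F δ).ncard : ℝ) ≤ c := by
      have h7 := (BP.perRat_ncard_le F δ h4).trans h5
      rw [hK] at h7
      rw [hc]
      exact_mod_cast h7
    have h8 : Y ≤ Y * (1 + Real.log Y) := by nlinarith
    have h9 : 1 ≤ Y * (1 + Real.log Y) := hY1.trans h8
    have h10 : Y * (1 + Real.log Y) ≤ (Y * (1 + Real.log Y)) ^ 4 :=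
      le_self_pow₀ h9 (by norm_num)
    calc ((perRat F δ).ncard : ℝ) ≤ c := h6
      _ ≤ Y := by linarith
      _ ≤ (Y * (1 + Real.log Y)) ^ 4 := h8.trans h10
      _ = 1 * (Y * (1 + Real.log Y)) ^ 4 := (one_mul _).symm
      _ ≤ max C₁ 1 * (Y * (1 + Real.log Y)) ^ 4 :=
          mul_le_mul_of_nonneg_right (le_max_right _ _) (by positivity)

end Pool.Agent.H.MP_0e6b5f_nt.Sp
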