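import Pool.Agent.H.MP_0e6b5f_nt.Sp.Asm
import Pool.Agent.H.MP_0e6b5f_nt.DefsSplit
import Pool.Agent.H.MP_0e6b5f_nt.BP.Final

/-!
# The bound for all Henon maps in terms of the number of split places of bad reduction
-/

namespace Pool.Agent.H.MP_0e6b5f_nt.Sp

open Pool.Agent.H.MP_0e6b5f_nt.Dom Pool.Agent.H.MP_0e6b5f_nt.Eng
open NumberField Module Polynomial
open Height Height.AdmissibleAbsValues Function Real

theorem splitPlaces_subset {K : Type*} [Field K] [NumberField K] (d : ℕ) (F : K[X]) (δ : K) :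
    splitPlaces d F δ ⊆ badPlaces F δ := by
  rintro v ⟨L, hL, w, k, ζ, hk, hvk, -, hfar, -⟩
  exact ⟨L, hL, w, k, hk, hvk, hfar⟩

theorem fixPoly_leadingCoeff {L : Type*} [Field L] {d : ℕ} (hd : 2 ≤ d) {c δ : L} (hc : c ≠ 0)
    (ζ : Fin d → L) : (fixPoly c δ ζ).leadingCoeff = c ^ (d - 1) := by
  have hmon : (∏ i, (X - C (ζ i)) : L[X]).Monic := monic_prod_X_sub_C _ _
  have hdeg : (∏ i, (X - C (ζ i)) : L[X]).natDegree = d := by
    rw [natDegree_prod_of_monic _ _ (fun i _ => monic_X_sub_C _)]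
    simp
  have hc' : c ^ (d - 1) ≠ 0 := pow_ne_zero _ hc
  have h1 : (C (c ^ (d - 1)) * ∏ i, (X - C (ζ i)) : L[X]).natDegree = d := by
    rw [natDegree_C_mul hc', hdeg]
  have h2 : (C (1 + δ) * X : L[X]).natDegree < d :=
    lt_of_le_of_lt ((natDegree_C_mul_le _ _).trans natDegree_X_le) (by omega)
  rw [fixPoly, leadingCoeff_add_of_degree_lt (degree_lt_degree (by rw [h1]; exact h2)),
    leadingCoeff_mul, leadingCoeff_C, hmon.leadingCoeff, mul_one]

/-- The bound for all Henon maps of degree `d` over number fields of degree `D`. -/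
theorem main_bound (D d : ℕ) (hd : 2 ≤ d) : ∃ C : ℝ, ∀ (K : Type*) [Field K] [NumberField K],
    finrank ℚ K = D → ∀ (F : K[X]) (δ : K), F.natDegree = d → δ ≠ 0 →
      (splitPlaces d F δ).Finite ∧ (perRat F δ).Finite ∧
      ((perRat F δ).ncard : ℝ) ≤ C * ((1 + (splitPlaces d F δ).ncard + logHeight₁ δ) *
        (1 + log (1 + (splitPlaces d F δ).ncard + logHeight₁ δ))) ^ 4 := by
  classical
  choose Cf hCf0 hCf using fun N : ℕ => asm N d hd
  refine ⟨∑ n ∈ Finset.range ((3 * d).factorial + 1), Cf (D * n) * (n * (1 + log n)) ^ 4, ?_⟩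
  intro K _ _ hK F δ hF hδ
  have hF0 : F ≠ 0 := by
    rintro rfl
    rw [natDegree_zero] at hF
    omega
  have hbf : (splitPlaces d F δ).Finite := by
    refine (naiveBad_finite hF0 hδ).subset ?_
    intro v hv
    obtain ⟨L, hL, w, k, hk, hvk, hfar⟩ := splitPlaces_subset d F δ hv
    intro hg
    refine not_far (by rw [natDegree_map]; omega) w.val ?_
      (goodAt_of_pow F δ v.val w.val hvk hg) hfar
    exact isNonarchimedean w.val w.isFinitePlace
  refine ⟨hbf, ?_⟩
  set s := (splitPlaces d F δ).ncard with hs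
  set h := logHeight₁ δ with hh
  set Y : ℝ := 1 + s + h with hY
  have hh0 : 0 ≤ h := zero_le_logHeight₁ δ
  have hs0 : (0 : ℝ) ≤ s := Nat.cast_nonneg s
  have hY1 : 1 ≤ Y := by rw [hY]; linarith
  have hlogY : 0 ≤ log Y := log_nonneg hY1
  apply finite_of_finset_card_le
  intro T hT
  obtain ⟨L, hL, c, μ, ζ, hn, hc, hμ, hFL⟩ := exists_ext hd F hF δ
  have hfdL : FiniteDimensional ℚ L := FiniteDimensional.trans ℚ K L
  have hnf : NumberField L := { to_charZero := inferInstance, to_finiteDimensional := hfdL }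
  set n := finrank K L with hndef
  have hn1 : 1 ≤ n := Module.finrank_pos
  have hdeg : finrank ℚ L = D * n := by
    rw [← Module.finrank_mul_finrank ℚ K L, hK]
  have hδL : algebraMap K L δ ≠ 0 := (_root_.map_ne_zero _).mpr hδ
  set Z : Set L := Set.range (algebraMap K L) with hZ
  -- the leading coefficient
  have hlc : algebraMap K L F.leadingCoeff = c ^ (d - 1) := by
    rw [← leadingCoeff_map (algebraMap K L), hFL, fixPoly_leadingCoeff hd hc]
  -- places of the extension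
  have hbad : {v : FinitePlace L | 1 < rho (fun i => c * ζ i) μ v.val ∧
      ¬ TwoFar v.val ζ Z}.ncard ≤ n * s := by
    refine (places_above (K := K) L (splitPlaces d F δ) hbf _ ?_).2
    rintro w ⟨hw, hnf2⟩
    obtain ⟨v, k, hk, hvk⟩ := exists_place_under (K := K) w
    refine ⟨v, ⟨L, hnf, w, k, ζ, hk, hvk, ?_, ?_, ?_⟩, k, hk, hvk⟩
    · rw [hlc]
      exact hFL
    · rw [hFL]
      exact far_of_rho hd hc ζ hμ w.val hw
    · intro i j hij
      by_contra hcon
      push Not at hcon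
      apply hnf2
      refine ⟨i, j, hij, ?_⟩
      rintro _ ⟨x, rfl⟩ k l
      constructor
      · by_contra h1
        exact hcon.1 ⟨x, k, l, not_le.mp h1⟩
      · by_contra h1
        exact hcon.2 ⟨x, k, l, not_le.mp h1⟩
  -- the invariant set
  obtain ⟨S, hTS, hS⟩ := exists_invariant (hen F δ) T (fun P hP => hT P hP)
  set S' : Finset (L × L) := S.image (fun P => (algebraMap K L P.1, algebraMap K L P.2)) with hS'
  have hinj : Function.Injective (fun P : K × K => (algebraMap K L P.1, algebraMap K L P.2)) := by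
    intro P Q hPQ
    rw [Prod.mk.injEq] at hPQ
    exact Prod.ext ((algebraMap K L).injective hPQ.1) ((algebraMap K L).injective hPQ.2)
  have hcard : T.card ≤ S'.card := by
    rw [hS', Finset.card_image_of_injective _ hinj]
    exact Finset.card_le_card hTS
  have hinv : ∀ P ∈ S', hen (fixPoly c (algebraMap K L δ) ζ) (algebraMap K L δ) P ∈ S' := by
    intro P hP
    rw [hS', Finset.mem_image] at hP
    obtain ⟨Q, hQ, rfl⟩ := hP
    rw [hS', Finset.mem_image]
    refine ⟨hen F δ Q, hS Q hQ, ?_⟩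
    have h1 := hen_map (L := L) F δ 1 Q
    rw [iterate_one, iterate_one, hFL] at h1
    exact h1.symm
  have hSZ : ∀ P ∈ S', P.2 ∈ Z := by
    intro P hP
    rw [hS', Finset.mem_image] at hP
    obtain ⟨Q, hQ, rfl⟩ := hP
    exact ⟨Q.2, rfl⟩
  have h1 := hCf (D * n) L hdeg c (algebraMap K L δ) μ ζ hc hδL hμ Z (n * s) hbad S' hinv hSZ
  have h1' : (T.card : ℝ) ≤ S'.card := by exact_mod_cast hcard
  have hlogL : logHeight₁ (algebraMap K L δ) = n * h := by
    rw [logHeight₁, mulHeight₁_ext, log_pow]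
    rfl
  rw [hlogL] at h1
  have hn1' : (1 : ℝ) ≤ n := by exact_mod_cast hn1
  have hZ' : 1 + ((n * s : ℕ) : ℝ) + n * h ≤ n * Y := by
    rw [hY]; push_cast; nlinarith
  have hZ1 : 1 ≤ 1 + ((n * s : ℕ) : ℝ) + n * h := by
    push_cast
    have : 0 ≤ (n : ℝ) * s + n * h := by positivity
    linarith
  have h2 := scale4 hn1' hY1 hZ1 hZ'
  have h3 : Cf (D * n) * (n * (1 + log n)) ^ 4 ≤
      ∑ n ∈ Finset.range ((3 * d).factorial + 1), Cf (D * n) * (n * (1 + log n)) ^ 4 := by
    refine Finset.single_le_sum (f := fun n : ℕ => Cf (D * n) * ((n : ℝ) * (1 + log n)) ^ 4)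
      (fun i _ => ?_) (Finset.mem_range.mpr (by omega))
    exact mul_nonneg (hCf0 _) (by positivity)
  calc (T.card : ℝ) ≤ Cf (D * n) * ((1 + ((n * s : ℕ) : ℝ) + n * h) *
        (1 + log (1 + ((n * s : ℕ) : ℝ) + n * h))) ^ 4 := h1'.trans h1
    _ ≤ Cf (D * n) * ((n * (1 + log n)) ^ 4 * (Y * (1 + log Y)) ^ 4) :=
        mul_le_mul_of_nonneg_left h2 (hCf0 _)
    _ = Cf (D * n) * (n * (1 + log n)) ^ 4 * (Y * (1 + log Y)) ^ 4 := by ring
    _ ≤ _ := mul_le_mul_of_nonneg_right h3 (by positivity)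

/-- The bound with the height of `δ` replaced by its minimum with a function of the number of all
bad places. -/
theorem main_bound_min (D d : ℕ) (hd : 2 ≤ d) : ∃ (C : ℝ) (c : ℕ → ℝ),
    ∀ (K : Type*) [Field K] [NumberField K],
    finrank ℚ K = D → ∀ (F : K[X]) (δ : K), F.natDegree = d → δ ≠ 0 →
      splitPlaces d F δ ⊆ badPlaces F δ ∧ (badPlaces F δ).Finite ∧ (perRat F δ).Finite ∧
      ((perRat F δ).ncard : ℝ) ≤ C * ((1 + (splitPlaces d F δ).ncard +
        min (Height.logHeight₁ δ) (c (badPlaces F δ).ncard)) *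
        (1 + Real.log (1 + (splitPlaces d F δ).ncard +
          min (Height.logHeight₁ δ) (c (badPlaces F δ).ncard)))) ^ 4 := by
  obtain ⟨C₁, hC₁⟩ := main_bound D d hd
  obtain ⟨C₃, hC₃⟩ := Eng.main_bound D d hd
  refine ⟨max C₁ 1, fun s => ((d ^ (Nat.nth Nat.Prime s ^ (12 * (1 * D)) + 1) : ℕ) : ℝ), ?_⟩
  intro K _ _ hK F δ hF hδ
  obtain ⟨h1, h2, h3⟩ := hC₁ K hK F δ hF hδ
  obtain ⟨hb, -, -⟩ := hC₃ K hK F δ hF hδ
  refine ⟨splitPlaces_subset d F δ, hb, h2, ?_⟩
  set s := (splitPlaces d F δ).ncard with hs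
  set c : ℝ := ((d ^ (Nat.nth Nat.Prime (badPlaces F δ).ncard ^ (12 * (1 * D)) + 1) : ℕ) : ℝ)
    with hc
  have hc0 : 0 ≤ c := Nat.cast_nonneg _
  have hs0 : (0 : ℝ) ≤ s := Nat.cast_nonneg s
  have hh0 : 0 ≤ Height.logHeight₁ δ := Height.zero_le_logHeight₁ δ
  rcases le_total (Height.logHeight₁ δ) c with h | h
  · rw [min_eq_left h]
    refine h3.trans (mul_le_mul_of_nonneg_right (le_max_left _ _) ?_)
    have hlog : 0 ≤ Real.log (1 + s + Height.logHeight₁ δ) := Real.log_nonneg (by linarith)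
    positivity
  · rw [min_eq_right h]
    set Y : ℝ := 1 + s + c with hY
    have hY1 : 1 ≤ Y := by linarith
    have hlog : 0 ≤ Real.log Y := Real.log_nonneg hY1
    obtain ⟨h4, h5, _⟩ := BP.bound_of_number (B := 1) hd hF hδ (le_refl _)
    have h6 : ((perRat F δ).ncard : ℝ) ≤ c := by
      have h7 := (BP.perRat_ncard_le F δ h4).trans h5
      rw [hK] at h7
      rw [hc]
      exact_mod_cast h7
    have h8 : Y ≤ Y * (1 + Real.log Y) := by nlinarith
    have h9 : 1 ≤ Y * (1 + Real.log Y) := hY1.trans h8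
    have h10 : Y * (1 + Real.log Y) ≤ (Y * (1 + Real.log Y)) ^ 4 :=
      le_self_pow₀ h9 (by norm_num)
    calc ((perRat F δ).ncard : ℝ) ≤ c := h6
      _ ≤ Y := by linarith
      _ ≤ (Y * (1 + Real.log Y)) ^ 4 := h8.trans h10
      _ = 1 * (Y * (1 + Real.log Y)) ^ 4 := (one_mul _).symm
      _ ≤ max C₁ 1 * (Y * (1 + Real.log Y)) ^ 4 :=
          mul_le_mul_of_nonneg_right (le_max_right _ _) (by positivity)

end Pool.Agent.H.MP_0e6b5f_nt.Sp
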